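import Pool.Agent.Lib.MP_66609f_al.Sch.SInj

/-! The Jordan-Schoenflies theorem. -/

namespace Pool.Agent.Lib.MP_66609f_al.Sch

open Set Metric Filter Topology Complex KKJS Function Bornology

variable {lam : Circle → ℂ} {U : Set ℂ}

theorem coe_mem (u : Circle) : (u : ℂ) ∈ closedBall (0 : ℂ) 1 := by simp

theorem exists_coe {z : ℂ} (hz : ‖z‖ = 1) : ∃ u : Circle, (u : ℂ) = z :=
  ⟨⟨z, mem_sphere_zero_iff_norm.2 hz⟩, rfl⟩

/-- The closure of a Jordan domain is a closed disc. -/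
theorem disc (hc : Continuous lam) (hi : Injective lam) (h : Inner (range lam) U) {o : ℂ}
    (ho : o ∈ U) : ∃ F : ℂ → ℂ, ContinuousOn F (closedBall 0 1) ∧ InjOn F (closedBall 0 1) ∧
      F '' ball 0 1 = U ∧ (∀ u : Circle, F u = lam u) ∧ F 0 = o := by
  obtain ⟨f, g, h1, h2⟩ := h.rmt ho
  obtain ⟨G, h3, h4, h5⟩ := h1.extend (ulc hc hi)
  have h6 := h3.injOn h4 (by rintro _ ⟨u, rfl⟩; exact diff_conn hc hi u)
  choose k hk using fun u : Circle => h3.sph h4 u.norm_coe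
  have k1 : Continuous k := (hc.isClosedEmbedding hi).isInducing.continuous_iff.2
    ((h4.comp_continuous continuous_subtype_val coe_mem).congr fun u => (hk u).symm)
  have k2 : Injective k := fun u v e =>
    Circle.ext (h6 (coe_mem u) (coe_mem v) (by rw [← hk, ← hk, e]))
  let e : Circle ≃ₜ Circle :=
    Continuous.homeoOfEquivCompactToT2 (f := Equiv.ofBijective k ⟨k2, circle_surj k1 k2⟩) k1
  have m : MapsTo (rad e.symm) (closedBall 0 1) (closedBall 0 1) := fun z hz => by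
    simpa [norm_rad] using hz
  refine ⟨G ∘ rad e.symm, h4.comp (continuous_rad e.symm.continuous).continuousOn m,
    h6.comp (radH e.symm).injective.injOn m, subset_antisymm ?_ fun z hz => ?_, fun u => ?_, ?_⟩
  · rintro _ ⟨w, hw, rfl⟩
    exact h3.mg (by simpa [norm_rad] using hw)
  · exact ⟨rad e (f z), by simpa [norm_rad] using h3.mf hz,
      by rw [comp_apply, rad_rad e.symm_apply_apply, h3.gf z hz]⟩
  · rw [comp_apply, rad_coe, ← hk]
    exact congrArg lam (e.apply_symm_apply u)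
  · rw [comp_apply, show rad e.symm 0 = 0 by simp [rad], h5, h2]

theorem inv_cont {K : Set ℂ} {F : ℂ → ℂ} (hK : IsCompact K) (hF : ContinuousOn F K)
    (hi : InjOn F K) : ∃ G : ℂ → ℂ, ContinuousOn G (F '' K) ∧ ∀ z ∈ K, G (F z) = z := by
  have := isCompact_iff_compactSpace.1 hK
  refine ⟨invFunOn F K, ?_, hi.leftInvOn_invFunOn⟩
  rw [image_eq_range, ← image_univ]
  exact (hF.domRestrict.isClosedEmbedding hi.injective).isInducing.continuousOn_image_iff.2
    (continuous_subtype_val.congr fun z => (hi.leftInvOn_invFunOn z.2).symm).continuousOn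

/-- An embedded closed disc does not separate the plane. -/
theorem disc_compl {F : ℂ → ℂ} (hF : ContinuousOn F (closedBall 0 1))
    (hi : InjOn F (closedBall 0 1)) : IsPreconnected (F '' closedBall 0 1)ᶜ := by
  obtain ⟨G, g1, g2⟩ := inv_cont (isCompact_closedBall _ _) hF hi
  have hK := (isCompact_closedBall (0 : ℂ) 1).image_of_continuousOn hF
  have p0 : ∀ z : ℂ, 0 < max 1 ‖z‖ := fun z => lt_max_of_lt_left one_pos
  have m : ∀ z : ℂ, z / (max 1 ‖z‖ : ℝ) ∈ closedBall (0 : ℂ) 1 := fun z => by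
    rw [mem_closedBall_zero_iff, norm_div, norm_real, Real.norm_of_nonneg (p0 z).le,
      div_le_one (p0 z)]
    exact le_max_right _ _
  have c : Continuous fun z : ℂ => F (z / (max 1 ‖z‖ : ℝ)) := hF.comp_continuous
    (continuous_id.div (by fun_prop) fun z => ofReal_ne_zero.2 (p0 z).ne') m
  refine isPreconnected_of_forall_pair fun x hx y hy => ?_
  have n : ∀ x ∉ F '' closedBall 0 1, ∀ z : ℂ, x - F (z / (max 1 ‖z‖ : ℝ)) ≠ 0 := fun x hx z e =>
    hx ⟨_, m z, (sub_eq_zero.1 e).symm⟩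
  obtain ⟨L, l1, l2⟩ := exists_log_univ ((continuous_const.sub c).div (continuous_const.sub c)
    (n x hx)) fun z => div_ne_zero (n y hy z) (n x hx z)
  obtain ⟨γ, hγ⟩ := joined_of_log hK hx hy (l1.comp_continuousOn g1) (by
    rintro _ ⟨z, hz, rfl⟩
    simp [g2 z hz, l2, max_eq_left (mem_closedBall_zero_iff.1 hz)])
  exact ⟨range γ, range_subset_iff.2 hγ, γ.source_mem_range, γ.target_mem_range,
    isPreconnected_range γ.continuous⟩

theorem exists_inner (hc : Continuous lam) (hi : Injective lam) :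
    ∃ U, Inner (range lam) U ∧ U.Nonempty := by
  have hK := isCompact_range hc
  obtain ⟨R, hR, hb⟩ := hK.isBounded.subset_ball_lt 0 0
  have hE : {z : ℂ | R ≤ dist z 0} ⊆ (range lam)ᶜ := fun z hz h => (mem_ball.1 (hb h)).not_ge hz
  have h0 : (R : ℂ) ∈ {z : ℂ | R ≤ dist z 0} := by simp [le_abs_self]
  obtain ⟨x, x1, x2⟩ : ∃ x ∉ range lam, x ∉ connectedComponentIn (range lam)ᶜ R := by
    by_contra! H
    refine jordan_sep hc hi ?_
    rw [(connectedComponentIn_subset (range lam)ᶜ (R : ℂ)).antisymm' H]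
    exact isPreconnected_connectedComponentIn
  refine ⟨_, Inner.comp hK (isConnected_range hc) x ((isBounded_ball (x := 0) (r := R)).subset
    fun z hz => mem_ball.2 (not_le.1 fun h => x2 ?_)), x, mem_connectedComponentIn x1⟩
  rw [connectedComponentIn_eq ((pre_far 0 hR.le).subset_connectedComponentIn h0 hE h),
    ← connectedComponentIn_eq hz]
  exact mem_connectedComponentIn x1

theorem image_closedBall {F : ℂ → ℂ} (h1 : F '' ball 0 1 = U) (h2 : ∀ u : Circle, F u = lam u) :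
    F '' closedBall 0 1 = U ∪ range lam := by
  rw [← ball_union_sphere, image_union, h1]
  congr 1
  refine subset_antisymm ?_ ?_
  · rintro _ ⟨z, hz, rfl⟩
    exact ⟨⟨z, hz⟩, (h2 ⟨z, hz⟩).symm⟩
  · rintro _ ⟨u, rfl⟩
    exact ⟨u, u.2, h2 u⟩

/-- The exterior domain after an inversion. -/
theorem outer (hc : Continuous lam) (h : Inner (range lam) U) {o : ℂ} (ho : o ∈ U)
    (hV : IsPreconnected (U ∪ range lam)ᶜ) (hK : IsCompact (U ∪ range lam)) :
    Inner (range fun u => (lam u⁻¹ - o)⁻¹) {w | w = 0 ∨ o + w⁻¹ ∉ U ∪ range lam} := by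
  have n : ∀ u, lam u - o ≠ 0 := fun u e => h.disj o ho ⟨u, sub_eq_zero.1 e⟩
  have hc' : Continuous fun u => (lam u⁻¹ - o)⁻¹ := Continuous.inv₀ (by fun_prop) fun u => n _
  have op : ∀ S : Set ℂ, IsOpen S → ∀ w ≠ 0, o + w⁻¹ ∈ S → ∀ᶠ y in 𝓝 w, o + y⁻¹ ∈ S :=
    fun S hS w h0 hw => (continuousAt_const.add (continuousAt_inv₀ h0)).eventually (hS.mem_nhds hw)
  have a0 : ∀ᶠ y in 𝓝[≠] (0 : ℂ), o + y⁻¹ ∉ U ∪ range lam :=
    ((tendsto_const_add_cobounded o).comp tendsto_inv₀_nhdsNE_zero).eventually hK.isBounded.compl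
  set A := {w : ℂ | w = 0 ∨ o + w⁻¹ ∉ U ∪ range lam}
  have hA : IsOpen A := isOpen_iff_mem_nhds.2 fun w hw => by
    by_cases h0 : w = 0
    · subst h0
      exact (eventually_nhdsWithin_iff.1 a0).mono fun y hy => or_iff_not_imp_left.2 hy
    · exact (op _ hK.isClosed.isOpen_compl w h0 (hw.resolve_left h0)).mono fun y hy => .inr hy
  have hB : IsOpen {w : ℂ | w ≠ 0 ∧ o + w⁻¹ ∈ U} := isOpen_iff_mem_nhds.2 fun w hw =>
    (isOpen_ne.eventually_mem hw.1).and (op _ h.op w hw.1 hw.2)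
  have hd : ∀ w ∈ A, w ∉ range fun u => (lam u⁻¹ - o)⁻¹ := by
    rintro _ (e | e) ⟨u, rfl⟩
    · exact inv_ne_zero (n _) e
    · exact e (.inr ⟨u⁻¹, by simp⟩)
  have hs : A \ {0} ⊆ (fun z => (z - o)⁻¹) '' (U ∪ range lam)ᶜ := fun w hw =>
    ⟨o + w⁻¹, hw.1.resolve_left hw.2, by simp⟩
  have hp : IsPreconnected A := by
    refine (hV.image (fun z => (z - o)⁻¹) (ContinuousOn.inv₀ (by fun_prop) fun z hz e =>
      hz (.inl (sub_eq_zero.1 e ▸ ho)))).subset_closure ?_ fun w hw => closure_mono hs ?_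
    · rintro _ ⟨z, hz, rfl⟩
      exact .inr (by simpa using hz)
    · exact (dense_compl_singleton (0 : ℂ)).open_subset_closure_inter hA hw
  have e : connectedComponentIn (range fun u => (lam u⁻¹ - o)⁻¹)ᶜ 0 = A := by
    refine subset_antisymm (isPreconnected_connectedComponentIn.subset_left_of_subset_union hA hB
      (disjoint_left.2 fun w w1 w2 => w1.elim w2.1 fun h1 => h1 (.inl w2.2)) (fun w hw => ?_)
      ⟨0, mem_connectedComponentIn (hd 0 (.inl rfl)), .inl rfl⟩)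
      (hp.subset_connectedComponentIn (.inl rfl) hd)
    refine or_iff_not_imp_left.2 fun h1 => ?_
    obtain ⟨h2, h3⟩ := not_or.1 h1
    refine ⟨h2, (not_not.1 h3).resolve_right fun ⟨u, hu⟩ =>
      connectedComponentIn_subset _ _ hw ⟨u⁻¹, by simp [hu]⟩⟩
  obtain ⟨r, hr, hb⟩ := Metric.isOpen_iff.1 h.op o ho
  refine e ▸ Inner.comp (isCompact_range hc') (isConnected_range hc') 0
    (e ▸ (isBounded_closedBall (x := 0) (r := r⁻¹)).subset fun w hw => ?_)
  rw [mem_closedBall_zero_iff]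
  by_cases h0 : w = 0
  · simp [h0, hr.le]
  · refine (le_inv_comm₀ (norm_pos_iff.2 h0) hr).2 (not_lt.1 fun h1 =>
      hw.resolve_left h0 (.inl (hb ?_)))
    simpa using h1

/-- The theorem of Schoenflies with a base point. -/
theorem schoenflies_at (hc : Continuous lam) (hi : Injective lam) (h : Inner (range lam) U)
    {o : ℂ} (ho : o ∈ U) :
    ∃ Φ : ℂ ≃ₜ ℂ, (∀ u : Circle, Φ u = lam u) ∧ Φ '' ball 0 1 = U ∧ Φ 0 = o := by
  classical
  obtain ⟨F, f1, f2, f3, f4, f5⟩ := disc hc hi h ho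
  have hK := image_closedBall f3 f4
  have n : ∀ u, lam u - o ≠ 0 := fun u e => h.disj o ho ⟨u, sub_eq_zero.1 e⟩
  obtain ⟨G, g1, g2, g3, g4, g5⟩ := disc (lam := fun u => (lam u⁻¹ - o)⁻¹)
    (Continuous.inv₀ (by fun_prop) fun u => n _)
    (fun u v e => inv_injective (hi (sub_left_injective (inv_injective e))))
    (outer hc h ho (hK ▸ disc_compl f1 f2)
      (hK ▸ (isCompact_closedBall _ _).image_of_continuousOn f1)) (o := 0) (.inl rfl)
  have m : ∀ z : ℂ, 1 ≤ ‖z‖ → z⁻¹ ∈ closedBall (0 : ℂ) 1 := fun z hz => by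
    simpa using inv_le_one_of_one_le₀ hz
  have z0 : ∀ z : ℂ, 1 ≤ ‖z‖ → z ≠ 0 := fun z hz => norm_pos_iff.1 (one_pos.trans_le hz)
  have n' : ∀ z : ℂ, 1 ≤ ‖z‖ → G z⁻¹ ≠ 0 := fun z hz e =>
    inv_ne_zero (z0 z hz) (g2 (m z hz) (mem_closedBall_self zero_le_one) (e.trans g5.symm))
  have out : ∀ z : ℂ, ¬ ‖z‖ ≤ 1 → o + (G z⁻¹)⁻¹ ∉ F '' closedBall 0 1 := fun z hz =>
    hK ▸ (g3.le ⟨z⁻¹, by simpa using inv_lt_one_of_one_lt₀ (not_le.1 hz), rfl⟩).resolve_left
      (n' z (not_le.1 hz).le)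
  let Φ : ℂ → ℂ := fun z => if ‖z‖ ≤ 1 then F z else o + (G z⁻¹)⁻¹
  have p1 : ∀ z, ‖z‖ ≤ 1 → Φ z = F z := fun z hz => if_pos hz
  have p2 : ∀ z, ¬ ‖z‖ ≤ 1 → Φ z = o + (G z⁻¹)⁻¹ := fun z hz => if_neg hz
  have c : Continuous Φ := continuous_if_le continuous_norm continuous_const
    (f1.mono fun z hz => mem_closedBall_zero_iff.2 hz)
    (continuousOn_const.add ((g1.comp (continuousOn_id.inv₀ z0) m).inv₀ n')) fun z hz => by
      obtain ⟨u, rfl⟩ := exists_coe hz
      rw [f4, ← Circle.coe_inv, g4]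
      simp
  have i : Injective Φ := fun x y e => by
    by_cases hx : ‖x‖ ≤ 1 <;> by_cases hy : ‖y‖ ≤ 1
    · exact f2 (by simpa) (by simpa) (by rwa [p1 x hx, p1 y hy] at e)
    · exact (out y hy ⟨x, by simpa, by rwa [p1 x hx, p2 y hy] at e⟩).elim
    · exact (out x hx ⟨y, by simpa, by rw [← p1 y hy, ← p2 x hx, e]⟩).elim
    · rw [p2 x hx, p2 y hy, add_right_inj, inv_inj] at e
      exact inv_injective (g2 (m x (not_le.1 hx).le) (m y (not_le.1 hy).le) e)
  have s : Surjective Φ := fun y => by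
    by_cases hy : y ∈ F '' closedBall 0 1
    · obtain ⟨x, hx, rfl⟩ := hy
      exact ⟨x, p1 x (by simpa using hx)⟩
    · obtain ⟨w, w1, w2⟩ := g3.ge (show (y - o)⁻¹ ∈ _ from .inr (by simpa [hK] using hy))
      have w0 : w ≠ 0 := fun e => hy ⟨0, mem_closedBall_self zero_le_one, by
        rw [e, g5, eq_comm, inv_eq_zero, sub_eq_zero] at w2
        rw [f5, w2]⟩
      refine ⟨w⁻¹, (p2 _ (not_le.2 ?_)).trans (by simp [w2])⟩
      rw [norm_inv]
      exact (one_lt_inv₀ (norm_pos_iff.2 w0)).2 (mem_ball_zero_iff.1 w1)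
  have t : Tendsto Φ (cobounded ℂ) (cobounded ℂ) := by
    have t0 : ∀ᶠ z : ℂ in cobounded ℂ, ¬ ‖z‖ ≤ 1 :=
      tendsto_norm_cobounded_atTop.eventually ((eventually_gt_atTop 1).mono fun _ => not_le.2)
    have t1 : Tendsto (fun z : ℂ => G z⁻¹) (cobounded ℂ) (𝓝[≠] 0) :=
      tendsto_nhdsWithin_iff.2 ⟨g5 ▸ (g1 0 (mem_closedBall_self zero_le_one)).tendsto.comp
        (tendsto_nhdsWithin_iff.2 ⟨tendsto_inv₀_cobounded, t0.mono fun z hz =>
          m z (not_le.1 hz).le⟩), t0.mono fun z hz => n' z (not_le.1 hz).le⟩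
    exact (((tendsto_const_add_cobounded o).comp tendsto_inv₀_nhdsNE_zero).comp t1).congr'
      (t0.mono fun z hz => (p2 z hz).symm)
  rw [cobounded_eq_cocompact] at t
  refine ⟨(Equiv.ofBijective Φ ⟨i, s⟩).toHomeomorphOfContinuousClosed c
    (isProperMap_iff_tendsto_cocompact.2 ⟨c, t⟩).isClosedMap,
    fun u => (p1 u u.norm_coe.le).trans (f4 u), f3 ▸ image_congr fun z hz =>
      p1 z (mem_ball_zero_iff.1 hz).le, (p1 0 (by simp)).trans f5⟩

/-- The theorem of Schoenflies. -/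
theorem schoenflies (hc : Continuous lam) (hi : Injective lam) :
    ∃ Φ : ℂ ≃ₜ ℂ, ∀ u : Circle, Φ u = lam u := by
  obtain ⟨U, h, o, ho⟩ := exists_inner hc hi
  exact (schoenflies_at hc hi h ho).imp fun _ h => h.1

end Pool.Agent.Lib.MP_66609f_al.Sch
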