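import Pool.Agent.Lib.MP_66609f_al.Sch.SMain

/-! Crosscuts of the unit disc. -/

namespace Pool.Agent.Lib.MP_66609f_al.Sch

open Set Metric Filter Topology Complex KKJS Function unitInterval

/-- Two arcs with the same end points and no other common point. -/
structure Two (p q : I → ℂ) : Prop where
  cp : Continuous p
  cq : Continuous q
  ip : Injective p
  iq : Injective q
  e0 : p 0 = q 0
  e1 : p 1 = q 1
  meet : ∀ s t, p s = q t → s = 0 ∨ s = 1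

variable {p q p' q' α β a b : I → ℂ} {Φ Ψ Φ' Ψ' : ℂ ≃ₜ ℂ}

theorem Two.meet' (h : Two p q) {s t : I} (e : p s = q t) : s = 0 ∧ t = 0 ∨ s = 1 ∧ t = 1 :=
  (h.meet s t e).imp (fun h1 => ⟨h1, h.iq (by rw [← e, h1, h.e0])⟩)
    fun h1 => ⟨h1, h.iq (by rw [← e, h1, h.e1])⟩

theorem Two.symm (h : Two p q) : Two q p :=
  ⟨h.cq, h.cp, h.iq, h.ip, h.e0.symm, h.e1.symm,
    fun _ _ e => (h.meet' e.symm).imp And.right And.right⟩

theorem Two.imp (h : Two p q) (h' : Two p' q') {s t : I ⊕ I}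
    (e : Sum.elim p q s = Sum.elim p q t) : Sum.elim p' q' s = Sum.elim p' q' t := by
  rcases s with s | s <;> rcases t with t | t
  · rw [h.ip e]
  · rcases h.meet' e with ⟨rfl, rfl⟩ | ⟨rfl, rfl⟩
    exacts [h'.e0, h'.e1]
  · rcases h.symm.meet' e with ⟨rfl, rfl⟩ | ⟨rfl, rfl⟩
    exacts [h'.e0.symm, h'.e1.symm]
  · rw [h.iq e]

/-- Two arcs that form the unit circle. -/
structure Arcs (α β : I → ℂ) : Prop extends Two α β where
  circ : ∀ z, ‖z‖ = 1 ↔ z ∈ range α ∪ range β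

theorem Arcs.symm (h : Arcs α β) : Arcs β α :=
  ⟨h.toTwo.symm, fun z => union_comm _ _ ▸ h.circ z⟩

theorem Arcs.n1 (h : Arcs α β) (t : I) : ‖α t‖ = 1 := (h.circ _).2 (.inl ⟨t, rfl⟩)

theorem exists_arcs {x y : ℂ} (hx : ‖x‖ = 1) (hy : ‖y‖ = 1) (h : x ≠ y) :
    ∃ α β, Arcs α β ∧ α 0 = x ∧ α 1 = y := by
  obtain ⟨x, rfl⟩ := exists_coe hx
  obtain ⟨y, rfl⟩ := exists_coe hy
  have h1 : x ≠ y := fun e => h (e ▸ rfl)
  have i1 := Circle.path_injective_of_ne h1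
  refine ⟨fun t => x.path y t, fun t => (y.path x).symm t, ⟨⟨by fun_prop, by fun_prop,
    Circle.coe_injective.comp i1, Circle.coe_injective.comp
      ((Circle.path_injective_of_ne h1.symm).comp symm_bijective.1), by simp, by simp,
    fun s t e => ?_⟩, fun z => ⟨fun hz => ?_, ?_⟩⟩, by simp, by simp⟩
  · refine ((Circle.range_path_inter_range_path h1).le
      ⟨⟨s, rfl⟩, σ t, (Circle.ext e).symm⟩).imp (fun e1 => i1 ?_) fun e1 => i1 ?_
    · rw [e1, Path.source]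
    · rw [Path.target]
      exact e1
  · obtain ⟨u, rfl⟩ := exists_coe hz
    rcases (Circle.range_path_union_range_path h1).ge (mem_univ u) with ⟨t, rfl⟩ | ⟨t, rfl⟩
    · exact .inl ⟨t, rfl⟩
    · exact .inr ⟨σ t, by simp⟩
  · rintro (⟨t, rfl⟩ | ⟨t, rfl⟩) <;> exact Circle.norm_coe _

/-- The theorem of Schoenflies for a curve made of two arcs. -/
theorem Arcs.jor (h : Arcs α β) (h' : Two p q) :
    ∃ Φ : ℂ ≃ₜ ℂ, (∀ t, Φ (α t) = p t) ∧ ∀ t, Φ (β t) = q t := by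
  let r : I ⊕ I → Circle := fun s => ⟨Sum.elim α β s, mem_sphere_zero_iff_norm.2 (by
    rcases s with s | s
    exacts [h.n1 s, h.symm.n1 s])⟩
  have r1 : Continuous r := (h.cp.sumElim h.cq).subtype_mk _
  have r2 : Surjective r := fun u => by
    rcases (h.circ u).1 u.norm_coe with ⟨t, e⟩ | ⟨t, e⟩
    exacts [⟨.inl t, Circle.ext e⟩, ⟨.inr t, Circle.ext e⟩]
  have e : ∀ s, Sum.elim p q (surjInv r2 (r s)) = Sum.elim p q s := fun s =>
    h.toTwo.imp h' (congrArg Subtype.val (surjInv_eq r2 (r s)))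
  obtain ⟨Φ, hΦ⟩ := schoenflies (lam := fun u => Sum.elim p q (surjInv r2 u))
    ((r1.isClosedMap.isQuotientMap r1 r2).continuous_iff.2
      ((h'.cp.sumElim h'.cq).congr fun s => (e s).symm))
    fun u v e1 => by
      rw [← surjInv_eq r2 u, ← surjInv_eq r2 v]
      exact Circle.ext (h'.imp h.toTwo e1)
  exact ⟨Φ, fun t => (hΦ (r (.inl t))).trans (e _), fun t => (hΦ (r (.inr t))).trans (e _)⟩

theorem side {S : Set ℂ} (hS : IsPreconnected S) (h : ∀ z ∈ S, ‖Φ.symm z‖ ≠ 1) {x y : ℂ}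
    (hx : x ∈ S) (hy : y ∈ S) (h1 : ‖Φ.symm x‖ < 1) : ‖Φ.symm y‖ < 1 := not_le.1 fun h2 => by
  obtain ⟨z, hz, e⟩ := hS.intermediate_value hx hy (f := fun z => ‖Φ.symm z‖) (by fun_prop)
    ⟨h1.le, h2⟩
  exact h z hz e

theorem mem_image_cb {z : ℂ} : z ∈ Φ '' closedBall 0 1 ↔ ‖Φ.symm z‖ ≤ 1 := by
  rw [Φ.image_eq_preimage_symm, mem_preimage, mem_closedBall_zero_iff]

theorem out_conn (Φ : ℂ ≃ₜ ℂ) : IsPreconnected {z | 1 < ‖Φ.symm z‖} := by
  convert disc_compl Φ.continuous.continuousOn Φ.injective.injOn using 1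
  ext z
  rw [mem_compl_iff, mem_image_cb, not_le, mem_ofPred_eq]

theorem in_ball (h : ∀ z, ‖Φ.symm z‖ = 1 → ‖z‖ ≤ 1) {z : ℂ} (hz : ‖Φ.symm z‖ < 1) : ‖z‖ < 1 := by
  have h1 : {z | ‖Φ.symm z‖ < 1} ⊆ closedBall 0 1 := fun z hz => by
    by_contra hn
    refine (((isCompact_closedBall (0 : ℂ) 1).image Φ.continuous).union
      (isCompact_closedBall (0 : ℂ) 1)).ne_univ (eq_univ_of_forall fun w => ?_)
    refine or_iff_not_imp_right.2 fun hw => mem_image_cb.2 (side (out_conn (.refl ℂ))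
      (fun v hv e => (h v e).not_gt hv) (by simpa using hn) (by simpa using hw) hz).le
  have h2 := (isOpen_lt (by fun_prop) continuous_const).subset_interior_iff.2 h1 hz
  rwa [interior_closedBall _ one_ne_zero, mem_ball_zero_iff] at h2

/-- `Φ` fixes the arc `α` and maps the arc `β` to the crosscut `a`. -/
structure Half (α β a : I → ℂ) (Φ : ℂ ≃ₜ ℂ) : Prop where
  arcs : Arcs α β
  two : Two α a
  le : ∀ t, ‖a t‖ ≤ 1
  fix : ∀ t, Φ (α t) = α t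
  map : ∀ t, Φ (β t) = a t

theorem Half.fix' (h : Half α β a Φ) (t : I) : Φ.symm (α t) = α t :=
  Φ.symm_apply_eq.2 (h.fix t).symm

theorem Half.map' (h : Half α β a Φ) (t : I) : Φ.symm (a t) = β t :=
  Φ.symm_apply_eq.2 (h.map t).symm

theorem Half.bd (h : Half α β a Φ) {z : ℂ} : ‖Φ.symm z‖ = 1 ↔ z ∈ range α ∪ range a := by
  refine ⟨fun e => ?_, ?_⟩
  · rw [← Φ.apply_symm_apply z]
    rcases (h.arcs.circ _).1 e with ⟨t, e⟩ | ⟨t, e⟩
    exacts [.inl ⟨t, by rw [← e, h.fix]⟩, .inr ⟨t, by rw [← e, h.map]⟩]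
  · rintro (⟨t, rfl⟩ | ⟨t, rfl⟩)
    exacts [by rw [h.fix', h.arcs.n1], by rw [h.map', h.arcs.symm.n1]]

theorem Half.lt (h : Half α β a Φ) {z : ℂ} (hz : ‖Φ.symm z‖ < 1) : ‖z‖ < 1 :=
  in_ball (fun z e => by
    rcases h.bd.1 e with ⟨t, rfl⟩ | ⟨t, rfl⟩
    exacts [(h.arcs.n1 t).le, h.le t]) hz

theorem Half.le' (h : Half α β a Φ) {z : ℂ} (hz : ‖Φ.symm z‖ ≤ 1) : ‖z‖ ≤ 1 := by
  rcases hz.eq_or_lt with e | e
  · rcases h.bd.1 e with ⟨t, rfl⟩ | ⟨t, rfl⟩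
    exacts [(h.arcs.n1 t).le, h.le t]
  · exact (h.lt e).le

theorem Half.edge (h : Half α β a Φ) (h' : Half β α a Ψ) {z : ℂ} (h1 : ‖Φ.symm z‖ = 1)
    (h2 : ‖Ψ.symm z‖ ≤ 1) : z ∈ range a := by
  rcases h.bd.1 h1 with ⟨s, rfl⟩ | h3
  · rcases h'.bd.1 (h2.eq_or_lt.resolve_right fun e => (h'.lt e).ne (h.arcs.n1 s)) with
      ⟨t, e⟩ | h3
    · rcases h.arcs.meet s t e.symm with rfl | rfl
      exacts [⟨0, h.two.e0.symm⟩, ⟨1, h.two.e1.symm⟩]
    · exact h3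
  · exact h3

/-- The two closed sides of a crosscut meet in the crosscut. -/
theorem Half.inter (h : Half α β a Φ) (h' : Half β α a Ψ) {z : ℂ} (h1 : ‖Φ.symm z‖ ≤ 1)
    (h2 : ‖Ψ.symm z‖ ≤ 1) : z ∈ range a := by
  rcases h1.eq_or_lt with e1 | e1
  · exact h.edge h' e1 h2
  rcases h2.eq_or_lt with e2 | e2
  · exact h'.edge h e2 h1
  have m : ∀ w, w ∈ Ψ '' ball 0 1 ↔ ‖Ψ.symm w‖ < 1 := fun w => by
    rw [Ψ.image_eq_preimage_symm, mem_preimage, mem_ball_zero_iff]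
  have h3 : Ψ '' ball 0 1 ⊆ {w | ‖Φ.symm w‖ ≤ 1} := fun w hw =>
    (side ((convex_ball 0 1).isPreconnected.image Ψ Ψ.continuous.continuousOn)
      (fun v hv e => ((m v).1 hv).ne (h'.bd.2 (.inr (h.edge h' e ((m v).1 hv).le))))
      ((m z).2 e2) hw e1).le
  have h4 := closure_minimal h3 (isClosed_le (by fun_prop) continuous_const)
  rw [← Ψ.image_closure, closure_ball _ one_ne_zero] at h4
  have h5 : ‖Ψ.symm (β ⟨1 / 2, by norm_num⟩)‖ = 1 := h'.bd.2 (.inl ⟨_, rfl⟩)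
  obtain ⟨t, ht⟩ := h'.edge h h5 (h4 (mem_image_cb.2 h5.le))
  rcases h'.two.meet _ t ht.symm with e | e <;> norm_num [Subtype.ext_iff] at e

/-- The two closed sides of a crosscut cover the disc. -/
theorem Half.cover (h : Half α β a Φ) (h' : Half β α a Ψ) {z : ℂ} (hz : ‖z‖ ≤ 1) :
    ‖Φ.symm z‖ ≤ 1 ∨ ‖Ψ.symm z‖ ≤ 1 := by
  by_contra! H
  have key : ∀ {α β : I → ℂ} {Φ : ℂ ≃ₜ ℂ}, Half α β a Φ → 1 < ‖Φ.symm z‖ →
      IsCompact (range α ∪ range a) ∧ JoinedIn (range α ∪ range a)ᶜ z 2 := fun h h1 => by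
    have h2 := (isCompact_range h.two.cp).union (isCompact_range h.two.cq)
    exact ⟨h2, joined_of_open h2.isClosed.isOpen_compl (out_conn _)
      (fun v hv e => (h.bd.2 e).not_gt hv) h1 (not_le.1 fun e => by simpa using h.le' (z := 2) e)⟩
  have e : (range α ∪ range a) ∩ (range β ∪ range a) = range a := subset_antisymm
    (fun v hv => h.edge h' (h.bd.2 hv.1) (h'.bd.2 hv.2).le) fun v hv => ⟨.inr hv, .inr hv⟩
  obtain ⟨γ, hγ⟩ := janiszewski (key h H.1).1 (key h' H.2).1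
    (e.symm ▸ isPreconnected_range h.two.cq) (key h H.1).2 (key h' H.2).2
  have n : ∀ v ∈ range γ, ‖v‖ ≠ 1 := by
    rintro _ ⟨t, rfl⟩ e
    exact hγ t (((h.arcs.circ _).1 e).imp .inl .inl)
  simpa using side (Φ := .refl ℂ) (isPreconnected_range γ.continuous) n γ.source_mem_range
    γ.target_mem_range (hz.lt_of_ne (n z γ.source_mem_range))

theorem glue (h : Half α β a Φ) (h' : Half β α a Ψ) (k : Half α β b Φ') (k' : Half β α b Ψ') :
    ∃ H : ℂ → ℂ, Continuous H ∧ (∀ z, ‖Φ.symm z‖ ≤ 1 → H z = Φ' (Φ.symm z)) ∧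
      (∀ z, ‖Ψ.symm z‖ ≤ 1 → H z = Ψ' (Ψ.symm z)) ∧ ∀ z, 1 ≤ ‖z‖ → H z = z := by
  let H : ℂ → ℂ := fun z =>
    if ‖Φ.symm z‖ ≤ 1 then Φ' (Φ.symm z) else if ‖Ψ.symm z‖ ≤ 1 then Ψ' (Ψ.symm z) else z
  have p1 : ∀ z, ‖Φ.symm z‖ ≤ 1 → H z = Φ' (Φ.symm z) := fun z hz => if_pos hz
  have p2 : ∀ z, ‖Ψ.symm z‖ ≤ 1 → H z = Ψ' (Ψ.symm z) := fun z hz => by
    by_cases h1 : ‖Φ.symm z‖ ≤ 1
    · obtain ⟨t, rfl⟩ := h.inter h' h1 hz
      rw [p1 _ h1, h.map', h'.map', k.map, k'.map]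
    · exact (if_neg h1).trans (if_pos hz)
  have p3 : ∀ z, 1 ≤ ‖z‖ → H z = z := fun z hz => by
    rcases hz.eq_or_lt with e | e
    · rcases (h.arcs.circ z).1 e.symm with ⟨t, rfl⟩ | ⟨t, rfl⟩
      · rw [p1 _ (h.bd.2 (.inl ⟨t, rfl⟩)).le, h.fix', k.fix]
      · rw [p2 _ (h'.bd.2 (.inl ⟨t, rfl⟩)).le, h'.fix', k'.fix]
    · exact (if_neg fun h1 => (h.le' h1).not_gt e).trans (if_neg fun h1 => (h'.le' h1).not_gt e)
  refine ⟨H, continuousOn_univ.1 ((((ContinuousOn.congr (s := {z | ‖Φ.symm z‖ ≤ 1}) (by fun_prop)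
    p1).union_of_isClosed (ContinuousOn.congr (s := {z | ‖Ψ.symm z‖ ≤ 1}) (by fun_prop) p2)
    (isClosed_le (by fun_prop) continuous_const) (isClosed_le (by fun_prop) continuous_const)
    ).union_of_isClosed (continuousOn_id.congr (s := {z | 1 ≤ ‖z‖}) p3)
    ((isClosed_le (by fun_prop) continuous_const).union
      (isClosed_le (by fun_prop) continuous_const))
    (isClosed_le continuous_const continuous_norm)).mono fun z _ =>
      (le_total ‖z‖ 1).imp (h.cover h') id), p1, p2, p3⟩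

theorem exists_half (h : Arcs α β) (hc : Continuous a) (hi : Injective a) (h0 : a 0 = α 0)
    (h1 : a 1 = α 1) (hl : ∀ t : I, t ≠ 0 → t ≠ 1 → ‖a t‖ < 1) : ∃ Φ, Half α β a Φ := by
  have t : Two α a := Two.symm ⟨hc, h.cp, hi, h.ip, h0, h1, fun s t e => by
    by_contra! H
    exact (hl s H.1 H.2).ne (e ▸ h.n1 t)⟩
  obtain ⟨Φ, f1, f2⟩ := h.jor t
  refine ⟨Φ, h, t, fun s => ?_, f1, f2⟩
  by_cases e0 : s = 0
  · rw [e0, h0, h.n1]
  by_cases e1 : s = 1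
  · rw [e1, h1, h.n1]
  exact (hl s e0 e1).le

/-- Two crosscuts of the unit disc with the same end points are equivalent under a homeomorphism
of the plane that is the identity outside the open disc. -/
theorem crosscut {x y : ℂ} (a b : Path x y) (ha : Injective a) (hb : Injective b) (hx : ‖x‖ = 1)
    (hy : ‖y‖ = 1) (ha' : ∀ t : I, t ≠ 0 → t ≠ 1 → ‖a t‖ < 1)
    (hb' : ∀ t : I, t ≠ 0 → t ≠ 1 → ‖b t‖ < 1) :
    ∃ h : ℂ ≃ₜ ℂ, (∀ w, 1 ≤ ‖w‖ → h w = w) ∧ ∀ t, h (a t) = b t := by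
  obtain ⟨α, β, h, h0, h1⟩ := exists_arcs hx hy fun e =>
    zero_ne_one (ha (a.source.trans (e.trans a.target.symm)))
  have ex : ∀ c : Path x y, Injective c → (∀ t : I, t ≠ 0 → t ≠ 1 → ‖c t‖ < 1) →
      ∃ Φ Ψ, Half α β c Φ ∧ Half β α c Ψ := fun c hc hc' => by
    obtain ⟨Φ, f⟩ := exists_half h c.continuous hc (by rw [h0, c.source]) (by rw [h1, c.target]) hc'
    obtain ⟨Ψ, g⟩ := exists_half h.symm c.continuous hc (by rw [← h.e0, h0, c.source])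
      (by rw [← h.e1, h1, c.target]) hc'
    exact ⟨Φ, Ψ, f, g⟩
  obtain ⟨Φ, Ψ, f, g⟩ := ex a ha ha'
  obtain ⟨Φ', Ψ', f', g'⟩ := ex b hb hb'
  obtain ⟨H, c, p1, p2, p3⟩ := glue f g f' g'
  obtain ⟨H', c', q1, q2, q3⟩ := glue f' g' f g
  refine ⟨⟨⟨H, H', fun z => ?_, fun z => ?_⟩, c, c'⟩, p3, fun t => ?_⟩
  · rcases le_total ‖z‖ 1 with e | e
    · rcases f.cover g e with e | e
      · rw [p1 z e, q1 _ (by simpa using e)]; simp
      · rw [p2 z e, q2 _ (by simpa using e)]; simp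
    · rw [p3 z e, q3 z e]
  · rcases le_total ‖z‖ 1 with e | e
    · rcases f'.cover g' e with e | e
      · rw [q1 z e, p1 _ (by simpa using e)]; simp
      · rw [q2 z e, p2 _ (by simpa using e)]; simp
    · rw [q3 z e, p3 z e]
  · exact (p1 _ (f.bd.2 (.inr ⟨t, rfl⟩)).le).trans (by rw [f.map', f'.map])

/-- The set form of the theorem of Schoenflies. -/
theorem schoenflies_set {c : Circle → ℂ} (hc : Continuous c) (hi : Injective c) :
    ∃ Ψ : ℂ ≃ₜ ℂ, Ψ '' sphere 0 1 = range c := by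
  obtain ⟨Ψ, h⟩ := schoenflies hc hi
  refine ⟨Ψ, subset_antisymm ?_ ?_⟩
  · rintro _ ⟨z, hz, rfl⟩
    exact ⟨⟨z, hz⟩, (h ⟨z, hz⟩).symm⟩
  · rintro _ ⟨u, rfl⟩
    exact ⟨u, u.2, h u⟩

theorem mem_image_sph {z : ℂ} : z ∈ Φ '' sphere 0 1 ↔ ‖Φ.symm z‖ = 1 := by
  rw [Φ.image_eq_preimage_symm, mem_preimage, mem_sphere_zero_iff_norm]

theorem mem_image_ball {z : ℂ} : z ∈ Φ '' ball 0 1 ↔ ‖Φ.symm z‖ < 1 := by
  rw [Φ.image_eq_preimage_symm, mem_preimage, mem_ball_zero_iff]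

/-- A Jordan curve in a closed Jordan domain has its inside in the open domain. -/
theorem inside_mono (h : Φ '' sphere 0 1 ⊆ Ψ '' closedBall 0 1) :
    Φ '' ball 0 1 ⊆ Ψ '' ball 0 1 := fun w hw => mem_image_ball.2 (in_ball (Φ := Φ.trans Ψ.symm)
  (fun z e => by simpa using mem_image_cb.1 (h (mem_image_sph.2 e)))
    (by simpa using mem_image_ball.1 hw))

theorem closed_mono (h : Φ '' sphere 0 1 ⊆ Ψ '' closedBall 0 1) :
    Φ '' closedBall 0 1 ⊆ Ψ '' closedBall 0 1 := by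
  rw [← ball_union_sphere, image_union, ball_union_sphere]
  exact union_subset ((inside_mono h).trans (image_mono ball_subset_closedBall)) h

/-- The closed inside depends only on the curve. -/
theorem closed_unique (h : Φ '' sphere 0 1 = Ψ '' sphere 0 1) :
    Φ '' closedBall 0 1 = Ψ '' closedBall 0 1 :=
  (closed_mono (h.le.trans (image_mono sphere_subset_closedBall))).antisymm
    (closed_mono (h.ge.trans (image_mono sphere_subset_closedBall)))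

theorem arcs_of_path {x y : ℂ} {k₁ k₂ : Path x y} (i₁ : Injective k₁) (i₂ : Injective k₂)
    (hu : range k₁ ∪ range k₂ = sphere 0 1) (hm : range k₁ ∩ range k₂ ⊆ {x, y}) : Arcs k₁ k₂ :=
  ⟨⟨k₁.continuous, k₂.continuous, i₁, i₂, by simp, by simp, fun s t e =>
    (hm ⟨⟨s, rfl⟩, t, e.symm⟩).imp (fun e1 => i₁ (e1.trans k₁.source.symm))
      fun e1 => i₁ (e1.trans k₁.target.symm)⟩, fun z => by rw [hu, mem_sphere_zero_iff_norm]⟩

/-- The theta curve lemma. -/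
theorem theta {x y : ℂ} (a k₁ k₂ : Path x y) (ha : Injective a) (i₁ : Injective k₁)
    (i₂ : Injective k₂) (hu : range k₁ ∪ range k₂ = sphere 0 1)
    (hm : range k₁ ∩ range k₂ ⊆ {x, y}) (ha' : ∀ t : I, t ≠ 0 → t ≠ 1 → ‖a t‖ < 1)
    {Ψ₁ Ψ₂ : ℂ ≃ₜ ℂ} (h₁ : Ψ₁ '' sphere 0 1 = range a ∪ range k₁)
    (h₂ : Ψ₂ '' sphere 0 1 = range a ∪ range k₂) :
    Ψ₁ '' closedBall 0 1 ∪ Ψ₂ '' closedBall 0 1 = closedBall 0 1 ∧
      Ψ₁ '' closedBall 0 1 ∩ Ψ₂ '' closedBall 0 1 = range a := by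
  have h := arcs_of_path i₁ i₂ hu hm
  obtain ⟨Φ, f⟩ := exists_half h a.continuous ha (by simp) (by simp) ha'
  obtain ⟨Ψ, g⟩ := exists_half h.symm a.continuous ha (by simp) (by simp) ha'
  rw [closed_unique (Ψ := Φ) (h₁.trans (Set.ext fun z => by rw [mem_image_sph, f.bd, union_comm])),
    closed_unique (Ψ := Ψ) (h₂.trans (Set.ext fun z => by rw [mem_image_sph, g.bd, union_comm]))]
  refine ⟨Set.ext fun z => ?_, Set.ext fun z => ?_⟩
  · rw [mem_union, mem_image_cb, mem_image_cb, mem_closedBall_zero_iff]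
    exact ⟨fun e => e.elim f.le' g.le', f.cover g⟩
  · rw [mem_inter_iff, mem_image_cb, mem_image_cb]
    exact ⟨fun e => f.inter g e.1 e.2, fun e => ⟨(f.bd.2 (.inr e)).le, (g.bd.2 (.inr e)).le⟩⟩

/-- The theta curve lemma with parameters. -/
theorem theta_exists {x y : ℂ} (a k₁ k₂ : Path x y) (ha : Injective a) (i₁ : Injective k₁)
    (i₂ : Injective k₂) (hu : range k₁ ∪ range k₂ = sphere 0 1)
    (hm : range k₁ ∩ range k₂ ⊆ {x, y}) (ha' : ∀ t : I, t ≠ 0 → t ≠ 1 → ‖a t‖ < 1) :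
    ∃ Ψ₁ Ψ₂ : ℂ ≃ₜ ℂ, (∀ t, Ψ₁ (k₁ t) = k₁ t ∧ Ψ₁ (k₂ t) = a t ∧ Ψ₂ (k₂ t) = k₂ t ∧
      Ψ₂ (k₁ t) = a t) ∧ Ψ₁ '' closedBall 0 1 ∪ Ψ₂ '' closedBall 0 1 = closedBall 0 1 ∧
      Ψ₁ '' closedBall 0 1 ∩ Ψ₂ '' closedBall 0 1 = range a := by
  have h := arcs_of_path i₁ i₂ hu hm
  obtain ⟨Φ, f⟩ := exists_half h a.continuous ha (by simp) (by simp) ha'
  obtain ⟨Ψ, g⟩ := exists_half h.symm a.continuous ha (by simp) (by simp) ha'
  exact ⟨Φ, Ψ, fun t => ⟨f.fix t, f.map t, g.fix t, g.map t⟩, theta a k₁ k₂ ha i₁ i₂ hu hm ha'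
    (Set.ext fun z => by rw [mem_image_sph, f.bd, union_comm])
    (Set.ext fun z => by rw [mem_image_sph, g.bd, union_comm])⟩

end Pool.Agent.Lib.MP_66609f_al.Sch
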