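import Mathlib

/-! Jordan curves and homeomorphisms of the circle. -/

namespace Pool.Agent.Lib.MP_66609f_al.Sch

open Set Metric Filter Topology Complex Function

/-- Uniform local connectedness. -/
def ULC (J : Set ℂ) : Prop := ∀ ε > 0, ∃ δ > 0, ∀ a ∈ J, ∀ b ∈ J, dist a b < δ →
  ∃ β ⊆ J, IsCompact β ∧ IsPreconnected β ∧ a ∈ β ∧ b ∈ β ∧ β ⊆ ball a ε

variable {lam : Circle → ℂ}

theorem cdist (u v : Circle) : dist u v = ‖(u : ℂ) - v‖ := dist_eq_norm (u : ℂ) v

theorem inv_unif (hc : Continuous lam) (hi : Injective lam) {η : ℝ} (hη : 0 < η) :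
    ∃ δ > 0, ∀ u v, dist (lam u) (lam v) < δ → dist u v < η := by
  obtain ⟨δ, h0, h⟩ := (isClosed_le continuous_const continuous_dist).isCompact.exists_forall_le'
    (s := {p : Circle × Circle | η ≤ dist p.1 p.2}) (f := fun p => dist (lam p.1) (lam p.2))
    (by fun_prop) (a := 0) fun p hp => dist_pos.2 fun e => by
      simp only [mem_ofPred_eq, hi e, dist_self] at hp
      exact hp.not_gt hη
  exact ⟨δ, h0, fun u v huv => not_le.1 fun h1 => (h (u, v) h1).not_gt huv⟩

theorem ulc (hc : Continuous lam) (hi : Injective lam) : ULC (range lam) := by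
  intro ε hε
  obtain ⟨η, hη, h1⟩ := Metric.uniformContinuous_iff.1
    (CompactSpace.uniformContinuous_of_continuous hc) ε hε
  obtain ⟨η', hη', h2⟩ := Metric.continuousAt_iff.1 (continuousAt_arg one_mem_slitPlane) (η / 2)
    (by positivity)
  obtain ⟨δ, hδ, h3⟩ := inv_unif hc hi hη'
  refine ⟨δ, hδ, ?_⟩
  rintro _ ⟨u, rfl⟩ _ ⟨v, rfl⟩ huv
  have hc' : Continuous fun t : ℝ => lam (u * Circle.exp t) := by fun_prop
  refine ⟨(fun t : ℝ => lam (u * Circle.exp t)) '' Icc (-(η / 2)) (η / 2), ?_,
    isCompact_Icc.image hc', isPreconnected_Icc.image _ hc'.continuousOn,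
    ⟨0, ⟨by linarith, by linarith⟩, by simp⟩, ⟨arg ((v / u : Circle) : ℂ), abs_le.1 ?_, ?_⟩, ?_⟩
  · rintro _ ⟨t, -, rfl⟩
    exact mem_range_self _
  · have h4 : dist ((v / u : Circle) : ℂ) 1 = dist u v := by
      rw [dist_comm u, cdist, dist_eq_norm, Circle.coe_div,
        div_sub_one u.coe_ne_zero, norm_div, Circle.norm_coe, div_one]
    have h5 := h2 (h4 ▸ h3 u v huv)
    rw [arg_one, Real.dist_eq, sub_zero] at h5
    exact h5.le
  · simp only [Circle.exp_arg, mul_div_cancel]
  · rintro _ ⟨t, ht, rfl⟩
    refine h1 ?_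
    rw [cdist, Circle.coe_mul, ← mul_sub_one, norm_mul, Circle.norm_coe,
      one_mul, Circle.coe_exp, mul_comm]
    exact Real.norm_exp_I_mul_ofReal_sub_one_le.trans_lt
      ((abs_le.2 ht).trans_lt (half_lt_self hη))

theorem diff_conn (hc : Continuous lam) (hi : Injective lam) (u : Circle) :
    IsPreconnected (range lam \ {lam u}) := by
  rw [← image_singleton, range_sdiff_image hi]
  exact (Circle.isPathConnected_compl_singleton u).isConnected.isPreconnected.image _
    hc.continuousOn

theorem circle_real {f : Circle → ℝ} (hc : Continuous f) : ¬ Injective f := fun hi => by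
  have hc' : Continuous fun u => f (-u) := by fun_prop
  rcases le_total (f 1) (f (-1)) with h | h
  · obtain ⟨u, hu⟩ := intermediate_value_univ₂ (a := 1) (b := -1) hc hc' h (by rwa [neg_neg])
    exact u.neg_ne_self (hi hu).symm
  · obtain ⟨u, hu⟩ := intermediate_value_univ₂ (a := 1) (b := -1) hc' hc h (by rwa [neg_neg])
    exact u.neg_ne_self (hi hu)

theorem circle_surj {k : Circle → Circle} (hc : Continuous k) (hi : Injective k) :
    Surjective k := fun q => by
  by_contra hq
  refine circle_real (f := fun u => arg ((-k u / q : Circle) : ℂ))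
    (continuous_iff_continuousAt.2 fun u => (continuousAt_arg (mem_slitPlane_iff_arg.2
      ⟨fun e => hq ⟨u, ?_⟩, Circle.coe_ne_zero _⟩)).comp
        (f := fun u => ((-k u / q : Circle) : ℂ)) (by fun_prop))
    fun u v e => hi (neg_injective (div_left_injective (Circle.injective_arg e)))
  have h : -k u / q = -1 := Circle.injective_arg (e.trans (by simp))
  rwa [div_eq_iff_eq_mul, neg_mul, one_mul, neg_inj] at h

/-- The direction of a complex number. -/
noncomputable def dir (z : ℂ) : Circle := Circle.exp (arg z)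

theorem norm_mul_dir (z : ℂ) : (‖z‖ : ℂ) * dir z = z := norm_mul_exp_arg_mul_I z

theorem dir_mul {r : ℝ} (hr : 0 < r) (u : Circle) : dir (r * u) = u := by
  rw [dir, arg_real_mul _ hr, Circle.exp_arg]

theorem dir_coe (u : Circle) : dir u = u := Circle.exp_arg u

theorem continuousAt_dir {z : ℂ} (hz : z ≠ 0) : ContinuousAt dir z := by
  refine IsInducing.subtypeVal.continuousAt_iff.2
    ((continuousAt_id.div (continuous_ofReal.comp continuous_norm).continuousAt
      (by simpa using hz)).congr ?_)
  filter_upwards [isOpen_ne.mem_nhds hz] with w hw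
  exact (div_eq_iff (by simpa using hw)).2 ((mul_comm _ _).trans (norm_mul_dir w)).symm

/-- The radial extension of a map of the circle. -/
noncomputable def rad (e : Circle → Circle) (z : ℂ) : ℂ := ‖z‖ * e (dir z)

theorem norm_rad (e : Circle → Circle) (z : ℂ) : ‖rad e z‖ = ‖z‖ := by simp [rad]

theorem rad_coe (e : Circle → Circle) (u : Circle) : rad e u = e u := by
  simp [rad, dir_coe]

theorem continuous_rad {e : Circle → Circle} (he : Continuous e) : Continuous (rad e) := by
  refine continuous_iff_continuousAt.2 fun z => ?_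
  by_cases hz : z = 0
  · subst hz
    rw [ContinuousAt, show rad e 0 = 0 by simp [rad], tendsto_zero_iff_norm_tendsto_zero]
    simp only [norm_rad]
    exact tendsto_norm_zero
  · exact (continuous_ofReal.comp continuous_norm).continuousAt.mul
      ((continuous_subtype_val.comp he).continuousAt.comp (continuousAt_dir hz))

theorem rad_rad {e e' : Circle → Circle} (h : ∀ u, e (e' u) = u) (z : ℂ) :
    rad e (rad e' z) = z := by
  by_cases hz : z = 0
  · simp [rad, hz]
  · rw [rad, norm_rad, rad, dir_mul (norm_pos_iff.2 hz), h, norm_mul_dir]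

/-- The radial extension of a homeomorphism of the circle. -/
noncomputable def radH (e : Circle ≃ₜ Circle) : ℂ ≃ₜ ℂ where
  toFun := rad e
  invFun := rad e.symm
  left_inv := rad_rad e.symm_apply_apply
  right_inv := rad_rad e.apply_symm_apply
  continuous_toFun := continuous_rad e.continuous
  continuous_invFun := continuous_rad e.symm.continuous

end Pool.Agent.Lib.MP_66609f_al.Sch
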