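import Mathlib

/-! The length-area argument in a strip. -/

namespace Pool.Agent.Lib.MP_66609f_al.Sch

open Set Metric Filter Topology MeasureTheory Complex

/-- The area of the image of a conformal map. -/
theorem area_lt {G : ℂ → ℂ} {S : Set ℂ} (hS : IsOpen S) (hd : DifferentiableOn ℂ G S)
    (hi : InjOn G S) (hb : Bornology.IsBounded (G '' S)) :
    ∫⁻ z in S, ENNReal.ofReal (‖deriv G z‖ ^ 2) < ⊤ := by
  have h := lintegral_abs_det_fderiv_le_addHaar_image volume hS.measurableSet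
    (fun z hz => ((hd.differentiableAt (hS.mem_nhds hz)).hasDerivAt.hasFDerivAt.restrictScalars
      ℝ).hasFDerivWithinAt) hi
  refine lt_of_le_of_lt (le_of_eq_of_le ?_ h) hb.measure_lt_top
  refine lintegral_congr fun z => ?_
  congr 1
  simp [ContinuousLinearMap.det, LinearMap.det_restrictScalars, Algebra.norm_complex_eq,
    Complex.normSq_eq_norm_sq]

theorem exists_short {G : ℂ → ℂ} {c : ℝ} (hd : DifferentiableOn ℂ G {u | |u.im| < c})
    (hi : InjOn G {u | |u.im| < c}) (hb : Bornology.IsBounded (G '' {u | |u.im| < c}))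
    {η : ℝ} (hη : 0 < η) (s₀ : ℝ) : ∃ s ≤ s₀,
      ∫⁻ θ in Ioo (-c) c, ENNReal.ofReal (‖deriv G (s + θ * I)‖ ^ 2) ≤ ENNReal.ofReal η := by
  have h := area_lt (isOpen_lt (by fun_prop) continuous_const) hd hi hb
  have hm : Measurable fun p : ℝ × ℝ => ENNReal.ofReal (‖deriv G (p.1 + p.2 * I)‖ ^ 2) :=
    (((measurable_deriv G).comp (by fun_prop)).norm.pow_const 2).ennreal_ofReal
  have e : ∫⁻ z in {u : ℂ | |u.im| < c}, ENNReal.ofReal (‖deriv G z‖ ^ 2) =
      ∫⁻ s : ℝ, ∫⁻ θ in Ioo (-c) c, ENNReal.ofReal (‖deriv G (s + θ * I)‖ ^ 2) := by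
    have e1 : measurableEquivRealProd.symm ⁻¹' {u : ℂ | |u.im| < c} = univ ×ˢ Ioo (-c) c := by
      ext p
      simp [abs_lt]
    rw [← (volume_preserving_equiv_real_prod.symm _).setLIntegral_comp_preimage_emb
      measurableEquivRealProd.symm.measurableEmbedding, ← lintegral_prod _ hm.aemeasurable, e1,
      Measure.volume_eq_prod, ← Measure.prod_restrict, Measure.restrict_univ]
    simp only [measurableEquivRealProd_symm_apply, mk_eq_add_mul_I]
  by_contra! H
  have h1 : ∫⁻ _ in Iic s₀, ENNReal.ofReal η ≤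
      ∫⁻ s : ℝ, ∫⁻ θ in Ioo (-c) c, ENNReal.ofReal (‖deriv G (s + θ * I)‖ ^ 2) :=
    (setLIntegral_mono' measurableSet_Iic fun s hs => (H s hs).le).trans
      (setLIntegral_le_lintegral _ _)
  rw [setLIntegral_const, Real.volume_Iic, ENNReal.mul_top (by simpa using hη), ← e] at h1
  exact h.not_ge h1

/-- Short crosscuts. -/
theorem len_area {G : ℂ → ℂ} {c : ℝ} (hc : 0 < c) (hd : DifferentiableOn ℂ G {u | |u.im| < c})
    (hi : InjOn G {u | |u.im| < c}) (hb : Bornology.IsBounded (G '' {u | |u.im| < c}))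
    {ε : ℝ} (hε : 0 < ε) (s₀ : ℝ) : ∃ s ≤ s₀, ∃ γ : ℝ → ℂ, Continuous γ ∧
      (∀ θ ∈ Ioo (-c) c, γ θ = G (s + θ * I)) ∧ ∀ θ, dist (γ θ) (γ 0) ≤ ε := by
  obtain ⟨δ, hδ, e⟩ : ∃ δ : ℝ, 0 < δ ∧ ε = (2 * c + 1) * δ :=
    ⟨ε / (2 * c + 1), by positivity, by field_simp⟩
  obtain ⟨s, hs, h⟩ := exists_short hd hi hb (η := δ ^ 2) (by positivity) s₀
  set D : ℝ → ℂ := fun θ => deriv G (s + θ * I) with hD
  have hm : Measurable D := (measurable_deriv G).comp (by fun_prop)
  have h1 : IntegrableOn (fun θ => ‖D θ‖ ^ 2) (Ioo (-c) c) :=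
    (lintegral_ofReal_ne_top_iff_integrable (hm.norm.pow_const 2).aestronglyMeasurable
      (ae_of_all _ fun θ => by positivity)).1 (h.trans_lt ENNReal.ofReal_lt_top).ne
  have h2 : ∫ θ in Ioo (-c) c, ‖D θ‖ ^ 2 ≤ δ ^ 2 := by
    rw [integral_eq_lintegral_of_nonneg_ae (ae_of_all _ fun θ => by positivity)
      h1.aestronglyMeasurable]
    exact ENNReal.toReal_le_of_le_ofReal (by positivity) h
  have h0 : IntegrableOn (fun _ => δ) (Ioo (-c) c) := integrableOn_const (by simp)
  have h3 : IntegrableOn (fun θ => δ + ‖D θ‖ ^ 2 / δ) (Ioo (-c) c) := h0.add (h1.div_const _)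
  have h4 : ∀ θ, ‖D θ * I‖ ≤ δ + ‖D θ‖ ^ 2 / δ := fun θ => by
    rw [norm_mul, norm_I, mul_one, ← sub_le_iff_le_add', le_div_iff₀ hδ]
    nlinarith [sq_nonneg (‖D θ‖ - δ), norm_nonneg (D θ)]
  have h5 : IntegrableOn (fun θ => D θ * I) (Ioo (-c) c) :=
    h3.mono' (hm.mul_const _).aestronglyMeasurable (ae_of_all _ h4)
  have h6 : Integrable ((Ioo (-c) c).indicator fun θ => D θ * I) :=
    (integrable_indicator_iff measurableSet_Ioo).2 h5
  refine ⟨s, hs, fun θ => G s + ∫ t in (0 : ℝ)..θ, (Ioo (-c) c).indicator (fun t => D t * I) t,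
    continuous_const.add (h6.continuous_primitive 0), fun θ hθ => ?_, fun θ => ?_⟩
  · have hsub : uIcc 0 θ ⊆ Ioo (-c) c := ordConnected_Ioo.uIcc_subset ⟨by linarith, hc⟩ hθ
    beta_reduce
    rw [intervalIntegral.integral_eq_sub_of_hasDerivAt (f := fun t : ℝ => G (s + t * I))
      (fun t ht => ?_) h6.intervalIntegrable]
    · simp
    · rw [indicator_of_mem (hsub ht)]
      have h7 : HasDerivAt G (D t) (s + t * I) := (hd.differentiableAt
        ((isOpen_lt (by fun_prop) continuous_const).mem_nhds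
          (by simpa using abs_lt.2 (hsub ht)))).hasDerivAt
      have h8 : HasDerivAt (fun z : ℂ => G (s + z * I)) (D t * I) t :=
        h7.comp (t : ℂ) (by simpa using ((hasDerivAt_id (t : ℂ)).mul_const I).const_add (s : ℂ))
      exact h8.comp_ofReal
  · simp only [intervalIntegral.integral_same, add_zero, dist_self_add_left]
    refine (intervalIntegral.norm_integral_le_integral_norm_uIoc).trans
      ((setIntegral_le_integral h6.norm (ae_of_all _ fun _ => norm_nonneg _)).trans ?_)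
    simp only [norm_indicator_eq_indicator_norm]
    rw [integral_indicator measurableSet_Ioo]
    refine (integral_mono h5.norm h3 h4).trans ?_
    rw [integral_add h0 (h1.div_const _), integral_div, e]
    have h9 : (∫ θ in Ioo (-c) c, ‖D θ‖ ^ 2) / δ ≤ δ := by
      rw [div_le_iff₀ hδ, ← sq]
      exact h2
    rw [setIntegral_const, Real.volume_real_Ioo_of_le (by linarith), smul_eq_mul]
    linarith

end Pool.Agent.Lib.MP_66609f_al.Sch
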