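import Pool.Agent.Lib.MP_66609f_al.Sch.SRmt
import Pool.Agent.Lib.MP_66609f_al.Sch.SLen
import Pool.Agent.Lib.MP_66609f_al.Sch.SArc

/-! Continuous extension of the Riemann map to the closed disc. -/

namespace Pool.Agent.Lib.MP_66609f_al.Sch

open Set Metric Filter Topology Complex KKJS
open scoped Real

variable {J U : Set ℂ} {f g : ℂ → ℂ}

theorem Conf.bd (h : Conf J U f g) {α : Type} {l : Filter α} [l.NeBot] {x : α → ℂ}
    (hx : ∀ᶠ a in l, x a ∈ ball (0 : ℂ) 1) {ξ p : ℂ} (h1 : Tendsto x l (𝓝 ξ)) (hξ : ‖ξ‖ = 1)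
    (h2 : Tendsto (fun a => g (x a)) l (𝓝 p)) : p ∈ J := by
  refine h.mem_of_closure (mem_closure_of_tendsto h2 (hx.mono fun a ha => h.mg ha)) fun hp => ?_
  have h3 := ((h.cf.continuousAt (h.op.mem_nhds hp)).tendsto.comp h2).congr'
    (hx.mono fun a ha => h.fg _ ha)
  exact (mem_ball_zero_iff.1 (h.mf hp)).ne (tendsto_nhds_unique h1 h3 ▸ hξ)

theorem Conf.rot (h : Conf J U f g) {ω : ℂ} (hω : ‖ω‖ = 1) :
    Conf J U (fun z => f z / ω) fun w => g (ω * w) := by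
  have h0 : ω ≠ 0 := norm_pos_iff.1 (hω ▸ one_pos)
  have h1 : MapsTo (fun w => ω * w) (ball (0 : ℂ) 1) (ball 0 1) := fun w hw => by
    simpa [hω] using hw
  exact ⟨h.toInner, h.cf.div_const _, h.dg.comp (by fun_prop) h1,
    fun z hz => by simpa [hω] using h.mf hz, h.mg.comp h1,
    fun z hz => by rw [mul_div_cancel₀ _ h0, h.gf z hz],
    fun w hw => by rw [h.fg _ (h1 hw), mul_div_cancel_left₀ _ h0]⟩

/-- The involution that exchanges the unit disc and the right half plane. -/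
noncomputable def mb (v : ℂ) : ℂ := (1 - v) / (1 + v)

theorem mb_mb {v : ℂ} (h : 1 + v ≠ 0) : mb (mb v) = v := by
  have e : 1 + (1 - v) / (1 + v) = 2 / (1 + v) := by field_simp; ring
  rw [mb, mb, e]
  field_simp
  ring

theorem ne_of_re {v : ℂ} (h : 0 ≤ v.re) : 1 + v ≠ 0 := fun e => by
  have := congrArg re e
  simp only [add_re, one_re, zero_re] at this
  linarith

theorem ne_of_norm {x : ℂ} (h : ‖x‖ < 1) : 1 + x ≠ 0 := fun e => by
  rw [← neg_eq_of_add_eq_zero_right e] at h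
  simp at h

theorem mb_re {x : ℂ} (h : ‖x‖ < 1) : 0 < (mb x).re := by
  have h1 : normSq x < 1 := by rw [normSq_eq_norm_sq]; nlinarith [norm_nonneg x]
  rw [mb, div_re, ← add_div]
  refine div_pos ?_ (normSq_pos.2 (ne_of_norm h))
  simp only [normSq_apply, sub_re, one_re, add_re, sub_im, one_im, add_im] at h1 ⊢
  linarith

theorem mb_lt {v : ℂ} (h : 0 < v.re) : ‖mb v‖ < 1 := by
  rw [mb, norm_div, div_lt_one (norm_pos_iff.2 (ne_of_re h.le)),
    ← sq_lt_sq₀ (norm_nonneg _) (norm_nonneg _), Complex.sq_norm, Complex.sq_norm]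
  simp only [normSq_apply, sub_re, one_re, add_re, sub_im, one_im, add_im]
  linarith

theorem mb_eq {v : ℂ} (h : v.re = 0) : ‖mb v‖ = 1 := by
  rw [mb, norm_div, div_eq_one_iff_eq (norm_ne_zero_iff.2 (ne_of_re h.ge)),
    ← sq_eq_sq₀ (norm_nonneg _) (norm_nonneg _), Complex.sq_norm, Complex.sq_norm]
  simp only [normSq_apply, sub_re, one_re, add_re, sub_im, one_im, add_im, h]
  ring

theorem strip_re {u : ℂ} (h : |u.im| < π / 2) : 0 < (exp u).re := by
  rw [exp_re]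
  exact mul_pos (Real.exp_pos _) (Real.cos_pos_of_mem_Ioo (abs_lt.1 h))

theorem exists_angle {w : ℂ} (hw : ‖w‖ < 1) {s : ℝ} (h : ‖1 - w‖ = Real.exp s * ‖1 + w‖) :
    ∃ θ ∈ Ioo (-(π / 2)) (π / 2), mb (exp (s + θ * I)) = w := by
  refine ⟨arg (mb w), abs_lt.1 (abs_arg_lt_pi_div_two_iff.2 (.inl (mb_re hw))), ?_⟩
  have e : ‖mb w‖ = Real.exp s := by
    rw [mb, norm_div, h, mul_div_cancel_right₀ _ (norm_ne_zero_iff.2 (ne_of_norm hw))]
  rw [exp_add, ← ofReal_exp, ← e, norm_mul_exp_arg_mul_I, mb_mb (ne_of_norm hw)]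

/-- A short crosscut near the boundary point `1`. -/
theorem Conf.cut (h : Conf J U f g) {ε : ℝ} (hε : 0 < ε) : ∃ s < (0 : ℝ), ∃ γ : ℝ → ℂ,
    Continuous γ ∧ γ (-(π / 2)) ∈ J ∧ γ (π / 2) ∈ J ∧ (∀ θ ∈ Ioo (-(π / 2)) (π / 2), γ θ ∈ U) ∧
      (∀ θ, dist (γ θ) (γ 0) ≤ ε) ∧ ∀ z ∈ U, ‖1 - f z‖ = Real.exp s * ‖1 + f z‖ →
        z ∈ γ '' Icc (-(π / 2)) (π / 2) := by
  have hm : MapsTo (fun u => mb (exp u)) {u : ℂ | |u.im| < π / 2} (ball 0 1) := fun u hu =>
    mem_ball_zero_iff.2 (mb_lt (strip_re hu))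
  obtain ⟨s, hs, γ, h1, h2, h3⟩ := len_area (G := fun u => g (mb (exp u))) Real.pi_div_two_pos
    (h.dg.comp ((by fun_prop : DifferentiableOn ℂ (fun u => 1 - exp u) _).div (by fun_prop)
      fun u hu => ne_of_re (strip_re hu).le) hm)
    (fun u hu v hv e => by
      have e1 := congrArg (fun z => mb (f z)) e
      simp only [h.fg _ (hm hu), h.fg _ (hm hv), mb_mb (ne_of_re (strip_re hu).le),
        mb_mb (ne_of_re (strip_re hv).le)] at e1
      have a1 := abs_lt.1 (show |u.im| < π / 2 from hu)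
      have a2 := abs_lt.1 (show |v.im| < π / 2 from hv)
      have := Real.pi_pos
      exact exp_inj_of_neg_pi_lt_of_le_pi (by linarith) (by linarith) (by linarith) (by linarith)
        e1)
    (h.bdd.subset (h.mg.comp hm).image_subset) hε (-1)
  have hb : ∀ θ ∈ Ioo (-(π / 2)) (π / 2), mb (exp (s + θ * I)) ∈ ball (0 : ℂ) 1 := fun θ hθ =>
    hm (by simpa using abs_lt.2 hθ)
  have key : ∀ t ∈ closure (Ioo (-(π / 2)) (π / 2)), Real.cos t = 0 → γ t ∈ J := fun t ht hc => by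
    have := mem_closure_iff_nhdsWithin_neBot.1 ht
    have e : (exp (s + t * I)).re = 0 := by simp [exp_re, hc]
    refine h.bd (l := 𝓝[Ioo (-(π / 2)) (π / 2)] t) (x := fun θ : ℝ => mb (exp (s + θ * I)))
      (eventually_mem_nhdsWithin.mono hb) (ContinuousAt.continuousWithinAt ?_) (mb_eq e)
      ((h1.tendsto t).mono_left nhdsWithin_le_nhds |>.congr' (eventually_mem_nhdsWithin.mono h2))
    exact ContinuousAt.div (by fun_prop) (by fun_prop) (ne_of_re e.ge)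
  have hp := Real.pi_div_two_pos
  rw [closure_Ioo (by linarith)] at key
  refine ⟨s, by linarith, γ, h1, key _ ⟨le_rfl, by linarith⟩ (by simp),
    key _ ⟨by linarith, le_rfl⟩ (by simp), fun θ hθ => h2 θ hθ ▸ h.mg (hb θ hθ), h3,
    fun z hz e => ?_⟩
  obtain ⟨θ, hθ, e1⟩ := exists_angle (mem_ball_zero_iff.1 (h.mf hz)) e
  exact ⟨θ, Ioo_subset_Icc_self hθ, by rw [h2 θ hθ, e1, h.gf z hz]⟩

theorem Conf.lim_one (h : Conf J U f g) (hJ : ULC J) :
    ∃ y, Tendsto g (𝓝[ball 0 1] 1) (𝓝 y) := by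
  have : (𝓝[ball (0 : ℂ) 1] 1).NeBot := mem_closure_iff_nhdsWithin_neBot.1 (by
    rw [closure_ball _ one_ne_zero]; simp)
  refine cauchy_map_iff_exists_tendsto.1 (Metric.cauchy_iff.2 ⟨inferInstance, fun ε hε => ?_⟩)
  have q0 : (0 : ℂ) ∈ ball (0 : ℂ) 1 := mem_ball_self one_pos
  obtain ⟨r, hr, hb⟩ := Metric.isOpen_iff.1 h.op _ (h.mg q0)
  have he : 0 < min (ε / 2) r := lt_min (half_pos hε) hr
  obtain ⟨δ, hδ, hβ⟩ := hJ _ he
  obtain ⟨s, hs, γ, h1, h2, h3, h4, h5, h6⟩ := h.cut (ε := min δ (min (ε / 2) r) / 3)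
    (div_pos (lt_min hδ he) three_pos)
  have d1 : ∀ t t', dist (γ t) (γ t') < min δ (min (ε / 2) r) := fun t t' =>
    (dist_triangle_right _ _ (γ 0)).trans_lt (by linarith [h5 t, h5 t', lt_min hδ he])
  obtain ⟨β, b1, b2, b3, b4, b5, b6⟩ := hβ _ h2 _ h3 ((d1 _ _).trans_le (min_le_left _ _))
  have hA : γ '' Icc (-(π / 2)) (π / 2) ∪ β ⊆ ball (γ (-(π / 2))) (min (ε / 2) r) :=
    union_subset (by rintro _ ⟨t, -, rfl⟩; exact (d1 _ _).trans_le (min_le_right _ _)) b6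
  have hc := (isCompact_Icc (a := -(π / 2)) (b := π / 2)).image h1 |>.union b2
  have hAJ : (γ '' Icc (-(π / 2)) (π / 2) ∪ β) ∩ J = β := by
    refine subset_antisymm ?_ (subset_inter subset_union_right b1)
    rintro _ ⟨⟨t, ht, rfl⟩ | hz, hj⟩
    · rcases ht.1.eq_or_lt with rfl | l1
      · exact b4
      rcases ht.2.eq_or_lt with rfl | l2
      · exact b5
      exact (h.disj _ (h4 t ⟨l1, l2⟩) hj).elim
    · exact hz
  refine ⟨ball (γ (-(π / 2))) (min (ε / 2) r), ?_, fun x hx y hy =>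
    (dist_triangle_right _ _ _).trans_lt (by
      linarith [mem_ball.1 hx, mem_ball.1 hy, min_le_left (ε / 2) r])⟩
  have hN : ∀ᶠ w in 𝓝 (1 : ℂ), ‖1 - w‖ < Real.exp s * ‖1 + w‖ :=
    (isOpen_lt (by fun_prop) (by fun_prop)).mem_nhds (by
      simp only [mem_ofPred_eq, sub_self, norm_zero]
      exact mul_pos (Real.exp_pos s) (norm_pos_iff.2 (ne_of_re (by simp))))
  refine mem_map.2 ?_
  filter_upwards [eventually_mem_nhdsWithin, mem_nhdsWithin_of_mem_nhds hN] with w hw hw'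
  by_contra hn
  refine h.sep hc (hAJ.symm ▸ b3) (ψ := fun z => ‖1 - f z‖ - Real.exp s * ‖1 + f z‖)
    ((continuousOn_const.sub h.cf).norm.sub
      (continuousOn_const.mul (continuousOn_const.add h.cf).norm))
    (fun z hz e => .inl (h6 z hz (sub_eq_zero.1 e))) (h.mg hw) (h.mg q0)
    (by rw [h.fg w hw]; exact sub_neg.2 hw') (by simpa [h.fg 0 q0] using hs)
    (joined_of_open hc.isClosed.isOpen_compl (pre_far _ he.le)
      (fun z hz h7 => (mem_ball.1 (hA h7)).not_ge hz) (le_of_not_gt (b := dist _ _) hn) ?_)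
  refine (min_le_right (ε / 2) r).trans (not_lt.1 fun h7 => h.disj _ (hb ?_) h2)
  rwa [mem_ball, dist_comm]

theorem Conf.lim (h : Conf J U f g) (hJ : ULC J) {ω : ℂ} (hω : ω ∈ closedBall (0 : ℂ) 1) :
    ∃ y, Tendsto g (𝓝[ball 0 1] ω) (𝓝 y) := by
  rcases (mem_closedBall_zero_iff.1 hω).eq_or_lt with e | e
  · obtain ⟨y, hy⟩ := (h.rot e).lim_one hJ
    have h0 : ω ≠ 0 := norm_pos_iff.1 (e ▸ one_pos)
    have h1 : Tendsto (fun w => w / ω) (𝓝[ball 0 1] ω) (𝓝[ball 0 1] 1) := by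
      rw [← div_self h0]
      exact ContinuousWithinAt.tendsto_nhdsWithin (f := fun w => w / ω) (by fun_prop)
        fun w hw => by simpa [e, div_self h0] using hw
    exact ⟨y, (hy.comp h1).congr fun w => by simp [mul_div_cancel₀ _ h0]⟩
  · exact ⟨_, h.dg.continuousOn ω (mem_ball_zero_iff.2 e)⟩

/-- The Riemann map extends continuously to the closed disc. -/
theorem Conf.extend (h : Conf J U f g) (hJ : ULC J) :
    ∃ G, Conf J U f G ∧ ContinuousOn G (closedBall 0 1) ∧ G 0 = g 0 := by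
  have e := extendFrom_extends h.dg.continuousOn
  exact ⟨extendFrom (ball 0 1) g, ⟨h.toInner, h.cf, h.dg.congr e, h.mf,
    fun w hw => (e w hw).symm ▸ h.mg hw, fun z hz => (e _ (h.mf hz)).trans (h.gf z hz),
    fun w hw => (e w hw).symm ▸ h.fg w hw⟩, continuousOn_extendFrom
      (closure_ball (0 : ℂ) one_ne_zero).ge fun ω hω => h.lim hJ hω, e 0 (mem_ball_self one_pos)⟩

end Pool.Agent.Lib.MP_66609f_al.Sch
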