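import Pool.Agent.Lib.MP_66609f_al.Sch.SCar

/-! The extension of the Riemann map of a Jordan domain is injective. -/

namespace Pool.Agent.Lib.MP_66609f_al.Sch

open Set Metric Filter Topology Complex KKJS
open scoped ComplexConjugate

variable {J U : Set ℂ} {f g : ℂ → ℂ}

theorem neBot_ball {ξ : ℂ} (hξ : ‖ξ‖ = 1) : (𝓝[ball (0 : ℂ) 1] ξ).NeBot :=
  mem_closure_iff_nhdsWithin_neBot.1 (by rw [closure_ball _ one_ne_zero]; simp [hξ])

theorem Conf.sph (h : Conf J U f g) (hg : ContinuousOn g (closedBall 0 1)) {ξ : ℂ}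
    (hξ : ‖ξ‖ = 1) : g ξ ∈ J :=
  have := neBot_ball hξ
  h.bd (l := 𝓝[ball 0 1] ξ) (x := id) eventually_mem_nhdsWithin nhdsWithin_le_nhds hξ
    ((hg ξ (by simp [hξ])).mono ball_subset_closedBall)

theorem rot_maps {ω : ℂ} (hω : ‖ω‖ = 1) :
    MapsTo (fun w => ω * w) (closedBall (0 : ℂ) 1) (closedBall 0 1) := fun w hw => by
  simpa [hω] using hw

/-- The boundary values are not constant on an arc. -/
theorem Conf.not_const (h : Conf J U f g) (hg : ContinuousOn g (closedBall 0 1)) {ξ₀ p : ℂ}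
    (h0 : ‖ξ₀‖ = 1) : ¬ ∀ᶠ ξ in 𝓝 ξ₀, ‖ξ‖ = 1 → g ξ = p := fun hN => by
  have n1 : ∀ ξ ∈ sphere (0 : ℂ) 1, ‖ξ₀ / ξ‖ = 1 := fun ξ hξ => by
    rw [norm_div, h0, mem_sphere_zero_iff_norm.1 hξ, div_one]
  obtain ⟨t, t1, t2⟩ := (isCompact_sphere (0 : ℂ) 1).elim_nhds_subcover
    (fun ξ => {z | ‖ξ₀ / ξ * z‖ = 1 → g (ξ₀ / ξ * z) = p}) fun ξ hξ => by
      have h1 : Tendsto (fun z => ξ₀ / ξ * z) (𝓝 ξ) (𝓝 (ξ₀ / ξ * ξ)) :=
        (continuous_const_mul _).tendsto ξ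
      rw [div_mul_cancel₀ _ (ne_zero_of_mem_unit_sphere ⟨ξ, hξ⟩)] at h1
      exact h1.eventually hN
  have h1 := norm_le_of_forall_mem_frontier_norm_le (U := ball (0 : ℂ) 1) isBounded_ball
    (f := fun z => ∏ ξ ∈ t, (g (ξ₀ / ξ * z) - p)) (C := 0) (z := 0) (DiffContOnCl.mk_ball
      (DifferentiableOn.fun_finsetProd fun ξ hξ => (h.rot (n1 ξ (t1 ξ hξ))).dg.sub_const p)
      (continuousOn_finsetProd t fun ξ hξ => (hg.comp (by fun_prop)
        (rot_maps (n1 ξ (t1 ξ hξ)))).sub continuousOn_const))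
    (fun z hz => by
      rw [frontier_ball _ one_ne_zero] at hz
      obtain ⟨ξ, hξ, h2⟩ := mem_iUnion₂.1 (t2 hz)
      exact norm_le_zero_iff.2 (Finset.prod_eq_zero hξ (sub_eq_zero.2 (h2 (by
        rw [norm_mul, n1 ξ (t1 ξ hξ), mem_sphere_zero_iff_norm.1 hz, one_mul])))))
    (subset_closure (mem_ball_self one_pos))
  obtain ⟨ξ, -, h2⟩ := Finset.prod_eq_zero_iff.1 (norm_le_zero_iff.1 h1)
  rw [mul_zero, sub_eq_zero, ← hN.self_of_nhds h0] at h2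
  exact h.disj _ (h.mg (mem_ball_self one_pos)) (h2 ▸ h.sph hg h0)

theorem Conf.sym (h : Conf J U f g) (hg : ContinuousOn g (closedBall 0 1))
    (hJ : ∀ p ∈ J, IsPreconnected (J \ {p})) {ζ : ℂ} (hζ : ‖ζ‖ = 1) (e : g ζ = g (conj ζ)) :
    ζ.im = 0 := by
  by_contra hn
  have z1 : ζ.re ^ 2 + ζ.im ^ 2 = 1 := by
    rw [sq, sq, ← normSq_apply, normSq_eq_norm_sq, hζ, one_pow]
  have z2 : |ζ.re| < 1 := by
    rw [← sq_lt_one_iff_abs_lt_one]
    nlinarith [sq_pos_of_ne_zero hn]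
  have hA : IsCompact (g '' (closedBall 0 1 ∩ {w | w.re = ζ.re})) :=
    ((isCompact_closedBall _ _).inter_right (isClosed_eq continuous_re continuous_const)
      ).image_of_continuousOn (hg.mono inter_subset_left)
  set A := g '' (closedBall 0 1 ∩ {w | w.re = ζ.re})
  have hAJ : ∀ z ∈ A, z ∈ J → z = g ζ := by
    rintro _ ⟨w, ⟨w1, w2⟩, rfl⟩ hj
    rcases (mem_closedBall_zero_iff.1 w1).eq_or_lt with l | l
    · have w3 : w.re ^ 2 + w.im ^ 2 = 1 := by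
        rw [sq, sq, ← normSq_apply, normSq_eq_norm_sq, l, one_pow]
      rw [show w.re = ζ.re from w2] at w3
      rcases sq_eq_sq_iff_eq_or_eq_neg.1 (show w.im ^ 2 = ζ.im ^ 2 by linarith) with l1 | l1
      · rw [Complex.ext w2 l1]
      · rw [e, Complex.ext (w := conj ζ) w2 l1]
    · exact (h.disj _ (h.mg (mem_ball_zero_iff.2 l)) hj).elim
  have key : ∀ P : Set ℂ, IsOpen P → ∀ ξ₀ ∈ P, ‖ξ₀‖ = 1 →
      ∃ q ∈ J \ {g ζ}, ∃ w ∈ ball (0 : ℂ) 1, w ∈ P ∧ JoinedIn Aᶜ q (g w) := by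
    intro P hP ξ₀ h0 h1
    obtain ⟨ξ, x1, x2⟩ := ((not_eventually.1 (h.not_const hg (p := g ζ) h1)).and_eventually
      (hP.mem_nhds h0)).exists
    obtain ⟨x3, x4⟩ := Classical.not_imp.1 x1
    have := neBot_ball x3
    obtain ⟨r, hr, hb⟩ := Metric.isOpen_iff.1 hA.isClosed.isOpen_compl (g ξ)
      fun h2 => x4 (hAJ _ h2 (h.sph hg x3))
    obtain ⟨w, ⟨w1, w2⟩, w3⟩ := ((((((hg ξ (by simp [x3])).mono ball_subset_closedBall).eventually
      (ball_mem_nhds _ hr)).and eventually_mem_nhdsWithin).and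
        (mem_nhdsWithin_of_mem_nhds (hP.mem_nhds x2)))).exists
    exact ⟨g ξ, ⟨h.sph hg x3, x4⟩, w, w2, w3, joined_of_open hA.isClosed.isOpen_compl
      (convex_ball _ _).isPreconnected hb (mem_ball_self hr) w1⟩
  obtain ⟨q, q1, w, w1, w2, w3⟩ := key {w | w.re < ζ.re} (isOpen_lt continuous_re continuous_const)
    (-1) (by simpa using (abs_lt.1 z2).1) (by simp)
  obtain ⟨q', q2, w', w4, w5, w6⟩ := key {w | ζ.re < w.re}
    (isOpen_lt continuous_const continuous_re) 1 (by simpa using (abs_lt.1 z2).2) (by simp)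
  refine h.sep hA (Set.Subsingleton.isPreconnected fun x hx y hy =>
    (hAJ x hx.1 hx.2).trans (hAJ y hy.1 hy.2).symm) (ψ := fun z => (f z).re - ζ.re)
    ((continuous_re.comp_continuousOn h.cf).sub continuousOn_const)
    (fun z hz e1 => ⟨f z, ⟨ball_subset_closedBall (h.mf hz), sub_eq_zero.1 e1⟩, h.gf z hz⟩)
    (h.mg w1) (h.mg w4) (by rw [h.fg w w1]; exact sub_neg.2 w2)
    (by rw [h.fg w' w4]; exact sub_pos.2 w5)
    ((w3.symm.trans (joined_of_open hA.isClosed.isOpen_compl (hJ _ (h.sph hg hζ))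
      (fun z hz h2 => hz.2 (hAJ z h2 hz.1)) q1 q2)).trans w6)

theorem Conf.injOn (h : Conf J U f g) (hg : ContinuousOn g (closedBall 0 1))
    (hJ : ∀ p ∈ J, IsPreconnected (J \ {p})) : InjOn g (closedBall 0 1) := by
  intro x hx y hy e
  rcases (mem_closedBall_zero_iff.1 hx).eq_or_lt with x1 | x1 <;>
    rcases (mem_closedBall_zero_iff.1 hy).eq_or_lt with y1 | y1
  · obtain ⟨ω, hω⟩ := IsAlgClosed.exists_pow_nat_eq (x * y) two_pos
    have w1 : ‖ω‖ = 1 := by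
      rw [← sq_eq_sq₀ (norm_nonneg _) zero_le_one, ← norm_pow, hω, norm_mul, x1, y1]
      simp
    have w0 : ω ≠ 0 := norm_pos_iff.1 (w1 ▸ one_pos)
    have x0 : x ≠ 0 := norm_pos_iff.1 (x1 ▸ one_pos)
    have z1 : ‖x / ω‖ = 1 := by rw [norm_div, x1, w1, div_one]
    have z2 : conj (x / ω) = y / ω := by
      rw [← inv_eq_conj z1, inv_div, div_eq_div_iff x0 w0, ← sq, hω, mul_comm]
    have z3 := (h.rot w1).sym (hg.comp (by fun_prop) (rot_maps w1)) hJ z1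
      (by rwa [z2, mul_div_cancel₀ _ w0, mul_div_cancel₀ _ w0])
    exact (div_left_inj' w0).1 ((conj_eq_iff_im.2 z3).symm.trans z2)
  · exact (h.disj _ (h.mg (mem_ball_zero_iff.2 y1)) (e ▸ h.sph hg x1)).elim
  · exact (h.disj _ (h.mg (mem_ball_zero_iff.2 x1)) (e ▸ h.sph hg y1)).elim
  · rw [← h.fg x (mem_ball_zero_iff.2 x1), e, h.fg y (mem_ball_zero_iff.2 y1)]

end Pool.Agent.Lib.MP_66609f_al.Sch
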