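import Pool.Agent.Lib.MP_66609f_al.Sch.STop
import Pool.Agent.Lib.MP_e9d8ca_an.RMT

/-! The Riemann mapping theorem for bounded domains with connected complement. -/

namespace Pool.Agent.Lib.MP_66609f_al.Sch

open Set Metric Filter Topology Pool.Agent.Lib.MP_e9d8ca_an

variable {J U : Set ℂ}

theorem Inner.sqrt (h : Inner J U) {z₀ : ℂ} (hz₀ : z₀ ∈ U) {f : ℂ → ℂ} (hf : rmt_Fam U z₀ f)
    {a : ℂ} (ha : ‖a‖ < 1) (hna : ∀ z ∈ U, f z ≠ a) :
    ∃ s : ℂ → ℂ, ContinuousOn s U ∧ ∀ w, s w ^ 2 = (rmt_mob a ∘ f) w := by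
  classical
  have ho : IsOpen (f '' U) := isOpen_iff_mem_nhds.2 (by
    rintro _ ⟨x, hx, rfl⟩
    rw [← ((hf.diff.analyticAt (h.op.mem_nhds hx)).hasStrictDerivAt).map_nhds_eq (hf.der x hx)]
    exact image_mem_map (h.op.mem_nhds hx))
  have a0 : (starRingEnd ℂ) a ≠ 0 := (map_ne_zero _).2 fun e => hna z₀ hz₀ (hf.zero.trans e.symm)
  obtain ⟨g, g1, g2⟩ := h.exists_log hf.diff.continuousOn hf.inj ho hz₀
    (a := ((starRingEnd ℂ) a)⁻¹) (b := a) (by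
      rintro ⟨z, hz, e⟩
      exact rmt_den_ne ha (mem_ball_zero_iff.1 (hf.maps hz)) (by rw [e, mul_inv_cancel₀ a0, sub_self]))
    (by rintro ⟨z, hz, e⟩; exact hna z hz e)
  refine ⟨U.piecewise (fun z => Complex.exp ((g z + Complex.log (-((starRingEnd ℂ) a)⁻¹)) / 2))
    fun z => (rmt_mob a ∘ f) z ^ (((2 : ℕ) : ℂ)⁻¹), ?_, fun w => ?_⟩
  · exact (((g1.add continuousOn_const).div_const 2).cexp).congr
      fun z hz => piecewise_eq_of_mem _ _ _ hz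
  · by_cases hw : w ∈ U
    · have h1 := rmt_den_ne ha (mem_ball_zero_iff.1 (hf.maps hw))
      have h2 : ((starRingEnd ℂ) a)⁻¹ - f w = (1 - (starRingEnd ℂ) a * f w) / (starRingEnd ℂ) a := by
        field_simp
      rw [piecewise_eq_of_mem _ _ _ hw, sq, ← Complex.exp_add, add_halves, Complex.exp_add, g2 w hw,
        Complex.exp_log (neg_ne_zero.2 (inv_ne_zero a0)), h2, Function.comp_apply, rmt_mob]
      field_simp
      ring
    · rw [piecewise_eq_of_notMem _ _ _ hw, Complex.cpow_nat_inv_pow _ two_ne_zero]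

theorem Inner.koebe (hJ : Inner J U) {z₀ : ℂ} (hz₀ : z₀ ∈ U)
    {f : ℂ → ℂ} (hf : rmt_Fam U z₀ f) {a : ℂ} (ha : ‖a‖ < 1) (hna : ∀ z ∈ U, f z ≠ a) :
    ∃ F, rmt_Fam U z₀ F ∧ ‖deriv f z₀‖ < ‖deriv F z₀‖ := by
  have hUo := hJ.op
  have hn : ∀ z ∈ U, ‖f z‖ < 1 := fun z hz => mem_ball_zero_iff.1 (hf.maps hz)
  have hD : ∀ z ∈ U, HasDerivAt (rmt_mob a ∘ f)
      ((1 - (starRingEnd ℂ) a * a) / (1 - (starRingEnd ℂ) a * f z) ^ 2 * deriv f z) z :=
    fun z hz => (rmt_mob_deriv ha (hn z hz)).comp z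
      (hf.diff.differentiableAt (hUo.mem_nhds hz)).hasDerivAt
  have hne : ∀ z ∈ U, (rmt_mob a ∘ f) z ≠ 0 := fun z hz =>
    div_ne_zero (sub_ne_zero.2 (hna z hz)) (rmt_den_ne ha (hn z hz))
  obtain ⟨s, hsc, hs⟩ := hJ.sqrt hz₀ hf ha hna
  have hs0 : ∀ z ∈ U, s z ≠ 0 := fun z hz h => hne z hz (by rw [← hs, h]; simp)
  have hsD := fun z (hz : z ∈ U) =>
    rmt_sqrt_deriv (hsc.continuousAt (hUo.mem_nhds hz)) hs (hs0 z hz) (hD z hz)
  have hsn : ∀ z ∈ U, ‖s z‖ < 1 := fun z hz => by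
    rw [← pow_lt_one_iff_of_nonneg (norm_nonneg _) two_ne_zero, ← norm_pow, hs]
    exact rmt_mob_norm ha (hn z hz)
  obtain ⟨h1, h2⟩ := rmt_normalize hz₀ (s := s) (fun z hz => mem_ball_zero_iff.2 (hsn z hz))
    (fun z hz w hw h => hf.inj hz hw (rmt_mob_inj ha (hn z hz) (hn w hw) (by
      have h3 := hs z
      rw [h, hs w] at h3
      exact h3.symm)))
    (fun z hz => by
      rw [(hsD z hz).deriv]
      exact div_ne_zero (mul_ne_zero (div_ne_zero (rmt_den_ne ha ha)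
        (pow_ne_zero 2 (rmt_den_ne ha (hn z hz)))) (hf.der z hz))
        (mul_ne_zero two_ne_zero (hs0 z hz)))
  refine ⟨_, h1, ?_⟩
  have hb : s z₀ ^ 2 = -a := by rw [hs]; simp [rmt_mob, hf.zero]
  have hb' : ‖a‖ = ‖s z₀‖ ^ 2 := by rw [← norm_pow, hb, norm_neg]
  have e : ∀ c : ℂ, ‖c‖ < 1 → ‖1 - (starRingEnd ℂ) c * c‖ = 1 - ‖c‖ ^ 2 := fun c hc => by
    rw [Complex.conj_mul', ← Complex.ofReal_pow, ← Complex.ofReal_one, ← Complex.ofReal_sub,
      Complex.norm_real, Real.norm_of_nonneg (by nlinarith [norm_nonneg c])]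
  have hb1 := hsn z₀ hz₀
  have hb0 : 0 < ‖s z₀‖ := norm_pos_iff.2 (hs0 z₀ hz₀)
  have hd0 : 0 < ‖deriv f z₀‖ := norm_pos_iff.2 (hf.der z₀ hz₀)
  rw [h2, (hsD z₀ hz₀).deriv, hf.zero]
  simp only [mul_zero, sub_zero, one_pow, div_one, norm_div, norm_mul, e a ha, e _ hb1,
    Complex.norm_ofNat, hb']
  have hpos : 0 < 1 - ‖s z₀‖ ^ 2 := by nlinarith
  rw [lt_div_iff₀ hpos, lt_div_iff₀ (by positivity)]
  have h5 : 0 < (1 - ‖s z₀‖ ^ 2) * (1 - ‖s z₀‖) ^ 2 * ‖deriv f z₀‖ := by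
    have : 0 < 1 - ‖s z₀‖ := by linarith
    positivity
  nlinarith

theorem Inner.extremal (hJ : Inner J U) {z₀ : ℂ} (hz₀ : z₀ ∈ U) :
    ∃ g, rmt_Fam U z₀ g ∧ ∀ f, rmt_Fam U z₀ f → ‖deriv f z₀‖ ≤ ‖deriv g z₀‖ := by
  have hUo := hJ.op
  obtain ⟨R, hR, hb⟩ := hJ.bdd.subset_ball_lt 0 0
  have hR' : (R : ℂ) ≠ 0 := Complex.ofReal_ne_zero.2 hR.ne'
  obtain ⟨hf₀, -⟩ := rmt_normalize hz₀ (s := fun z => z / R) (fun z hz => by
      rw [mem_ball_zero_iff, norm_div, Complex.norm_real, Real.norm_of_nonneg hR.le, div_lt_one hR]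
      exact mem_ball_zero_iff.1 (hb hz))
    (fun z _ w _ e => (div_left_inj' hR').1 e) fun z _ => by simpa using hR.ne'
  set S : Set ℝ := {x | ∃ f, rmt_Fam U z₀ f ∧ ‖deriv f z₀‖ = x} with hS
  have hne : S.Nonempty := ⟨_, _, hf₀, rfl⟩
  obtain ⟨r, hr, hrU⟩ := Metric.isOpen_iff.1 hUo z₀ hz₀
  have hbd : BddAbove S := by
    refine ⟨1 / r, ?_⟩
    rintro _ ⟨f, hf, rfl⟩
    refine Complex.norm_deriv_le_div_of_mapsTo_ball (hf.diff.mono hrU) (fun z hz => ?_) hr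
    rw [hf.zero]
    exact Metric.ball_subset_closedBall (hf.maps (hrU hz))
  obtain ⟨u, -, hu, huS⟩ := exists_seq_tendsto_sSup hne hbd
  choose F hF hFu using huS
  let 𝓤 : Ultrafilter ℕ := Ultrafilter.of atTop
  have h𝓤 : (𝓤 : Filter ℕ) ≤ atTop := Ultrafilter.of_le _
  obtain ⟨g, hg⟩ := rmt_montel 𝓤 hUo (fun n => (hF n).diff) fun n => (hF n).maps
  have hgd : DifferentiableOn ℂ g U :=
    hg.differentiableOn (Eventually.of_forall fun n => (hF n).diff) hUo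
  have hg' := hg.deriv (Eventually.of_forall fun n => (hF n).diff) hUo
  have hM : ‖deriv g z₀‖ = sSup S := by
    refine tendsto_nhds_unique (hg'.tendsto_at hz₀).norm ?_
    simp only [Function.comp_apply, hFu]
    exact hu.mono_left h𝓤
  have hle : ∀ f, rmt_Fam U z₀ f → ‖deriv f z₀‖ ≤ ‖deriv g z₀‖ := fun f hf => by
    rw [hM]; exact le_csSup hbd ⟨f, hf, rfl⟩
  have hd0 : deriv g z₀ ≠ 0 :=
    norm_pos_iff.1 ((norm_pos_iff.2 (hf₀.der z₀ hz₀)).trans_le (hle _ hf₀))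
  have hder : ∀ z ∈ U, deriv g z ≠ 0 := fun z hz h => by
    have h1 := rmt_hurwitz hUo (fun n => (hF n).diff.deriv hUo) (fun n => (hF n).der) hg' hz h
    exact hd0 (((hgd.deriv hUo).analyticOnNhd hUo).eqOn_zero_of_preconnected_of_eventuallyEq_zero
      hJ.conn hz h1 hz₀)
  refine ⟨g, ⟨hgd, fun z hz => ?_, fun z hz w hw h => ?_, hder, ?_⟩, hle⟩
  · rw [← interior_closedBall _ one_ne_zero, mem_interior_iff_mem_nhds,
      ← ((hgd.analyticAt (hUo.mem_nhds hz)).hasStrictDerivAt).map_nhds_eq (hder z hz), mem_map]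
    filter_upwards [hUo.mem_nhds hz] with w hw
    exact Metric.isClosed_closedBall.mem_of_tendsto (hg.tendsto_at hw)
      (Eventually.of_forall fun n => Metric.ball_subset_closedBall ((hF n).maps hw))
  · by_contra hzw
    have hV : IsOpen (U \ {w}) := hUo.sdiff isClosed_singleton
    have hc : TendstoLocallyUniformlyOn (fun n y => F n y - F n w) (fun y => g y - g w) 𝓤
        (U \ {w}) :=
      (hg.mono sdiff_subset).sub
        ((hg.tendsto_at hw).tendstoUniformlyOn_const _).tendstoLocallyUniformlyOn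
    have h1 := rmt_hurwitz hV (fun n => ((hF n).diff.mono sdiff_subset).sub_const _)
      (fun n y hy h => hy.2 ((hF n).inj hy.1 hw (sub_eq_zero.1 h))) hc ⟨hz, hzw⟩ (sub_eq_zero.2 h)
    have h2 : g =ᶠ[𝓝 z] fun _ => g w := h1.mono fun y hy => sub_eq_zero.1 hy
    exact hder z hz (by rw [h2.deriv_eq, deriv_const])
  · refine tendsto_nhds_unique (hg.tendsto_at hz₀) ?_
    simp only [(hF _).zero]
    exact tendsto_const_nhds

/-- `g` maps the unit disc conformally onto `U` with inverse `f`. -/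
structure Conf (J U : Set ℂ) (f g : ℂ → ℂ) : Prop extends Inner J U where
  cf : ContinuousOn f U
  dg : DifferentiableOn ℂ g (ball 0 1)
  mf : MapsTo f U (ball 0 1)
  mg : MapsTo g (ball 0 1) U
  gf : ∀ z ∈ U, g (f z) = z
  fg : ∀ w ∈ ball (0 : ℂ) 1, f (g w) = w

theorem Inner.rmt (hJ : Inner J U) {z₀ : ℂ} (hz₀ : z₀ ∈ U) :
    ∃ f g : ℂ → ℂ, Conf J U f g ∧ g 0 = z₀ := by
  have hUo := hJ.op
  obtain ⟨f, hf, hmax⟩ := hJ.extremal hz₀
  have hsurj : ∀ w ∈ Metric.ball (0 : ℂ) 1, ∃ z ∈ U, f z = w := fun w hw => by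
    by_contra h
    obtain ⟨F, hF, hlt⟩ := hJ.koebe hz₀ hf (mem_ball_zero_iff.1 hw)
      fun z hz h' => h ⟨z, hz, h'⟩
    exact absurd (hmax F hF) (not_le.2 hlt)
  have hleft : ∀ z ∈ U, Function.invFunOn f U (f z) = z := fun z hz =>
    hf.inj.leftInvOn_invFunOn hz
  refine ⟨f, Function.invFunOn f U, ⟨hJ, hf.diff.continuousOn, fun w hw => ?_, hf.maps,
    fun w hw => Function.invFunOn_mem (hsurj w hw), hleft,
    fun w hw => Function.invFunOn_eq (hsurj w hw)⟩, hf.zero ▸ hleft z₀ hz₀⟩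
  obtain ⟨z, hz, rfl⟩ := hsurj w hw
  exact (((hf.diff.analyticAt (hUo.mem_nhds hz)).hasStrictDerivAt).to_local_left_inverse
    (hf.der z hz) (by filter_upwards [hUo.mem_nhds hz] with y hy using hleft y hy)
    ).hasDerivAt.differentiableAt.differentiableWithinAt

end Pool.Agent.Lib.MP_66609f_al.Sch
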