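import Pool.Agent.Lib.MP_e1e491_gt.PT

/-! Bounded domains with connected complement: separation and logarithms. -/

namespace Pool.Agent.Lib.MP_66609f_al.Sch

open Set Metric Complex KKJS Filter Topology

/-- `U` is a bounded domain with connected complement, disjoint from the compact set `J` which
contains its boundary. -/
structure Inner (J U : Set ℂ) : Prop where
  cJ : IsCompact J
  op : IsOpen U
  conn : IsPreconnected U
  bdd : Bornology.IsBounded U
  disj : ∀ z ∈ U, z ∉ J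
  fr : frontier U ⊆ J
  co : IsPreconnected Uᶜ

variable {J U : Set ℂ}

theorem Inner.comp (hJ : IsCompact J) (hc : IsConnected J) (x : ℂ)
    (hb : Bornology.IsBounded (connectedComponentIn Jᶜ x)) :
    Inner J (connectedComponentIn Jᶜ x) :=
  ⟨hJ, hJ.isClosed.isOpen_compl.connectedComponentIn, isPreconnected_connectedComponentIn, hb,
    fun _ hz => connectedComponentIn_subset _ _ hz, frontier_comp hJ.isClosed x,
    compl_comp hJ.isClosed hc x⟩

theorem Inner.mem_of_closure (h : Inner J U) {z : ℂ} (hz : z ∈ closure U) (hn : z ∉ U) : z ∈ J :=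
  h.fr ⟨hz, fun h1 => hn (interior_subset h1)⟩

theorem Inner.sub (h : Inner J U) {Y : Set ℂ} (hY : IsPreconnected Y) (hJ : ∀ z ∈ Y, z ∉ J)
    {x : ℂ} (hx : x ∈ Y) (hU : x ∈ U) : Y ⊆ U :=
  hY.subset_of_closure_inter_subset h.op ⟨x, hx, hU⟩ fun z hz =>
    by_contra fun hn => hJ z hz.2 (h.mem_of_closure hz.1 hn)

theorem Inner.jan (h : Inner J U) {A : Set ℂ} (hA : IsCompact A) (hAJ : IsPreconnected (A ∩ J))
    {x y : ℂ} (hx : x ∈ U) (hy : y ∈ U) (hj : JoinedIn Aᶜ x y) :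
    ∃ Y, IsPreconnected Y ∧ Y ⊆ U \ A ∧ x ∈ Y ∧ y ∈ Y := by
  obtain ⟨γ, hγ⟩ := janiszewski hA h.cJ hAJ hj
    (joined_of_open h.cJ.isClosed.isOpen_compl h.conn h.disj hx hy)
  have hp : IsPreconnected (range γ) := isPreconnected_range γ.continuous
  have h1 := h.sub hp (by rintro _ ⟨t, rfl⟩ h2; exact hγ t (.inr h2)) γ.source_mem_range hx
  exact ⟨range γ, hp, by rintro _ ⟨t, rfl⟩; exact ⟨h1 ⟨t, rfl⟩, fun h2 => hγ t (.inl h2)⟩,
    γ.source_mem_range, γ.target_mem_range⟩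

/-- A compact set that contains the zero set of `ψ` and meets `J` in a connected set separates
the points where `ψ` has opposite signs. -/
theorem Inner.sep (h : Inner J U) {A : Set ℂ} (hA : IsCompact A) (hAJ : IsPreconnected (A ∩ J))
    {ψ : ℂ → ℝ} (hψ : ContinuousOn ψ U) (h0 : ∀ z ∈ U, ψ z = 0 → z ∈ A) {x y : ℂ} (hx : x ∈ U)
    (hy : y ∈ U) (h1 : ψ x < 0) (h2 : 0 < ψ y) : ¬ JoinedIn Aᶜ x y := fun hj => by
  obtain ⟨Y, hY, hs, x1, y1⟩ := h.jan hA hAJ hx hy hj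
  obtain ⟨z, hz, e⟩ := hY.intermediate_value x1 y1 (hψ.mono fun z hz => (hs hz).1) ⟨h1.le, h2.le⟩
  exact (hs hz).2 (h0 z (hs hz).1 e)

/-- The complement of an open embedded copy of `U` is not separated by compact subsets. -/
theorem Inner.one_end (h : Inner J U) {f : ℂ → ℂ} (hf : ContinuousOn f U) (hi : InjOn f U)
    (ho : IsOpen (f '' U)) {L : Set ℂ} (hL : IsCompact L) (hn : L.Nonempty) (hLU : L ⊆ U)
    {a b : ℂ} (ha : a ∉ f '' U) (hb : b ∉ f '' U) : JoinedIn (f '' L)ᶜ a b := by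
  have hK : IsCompact (f '' L) := hL.image_of_continuousOn (hf.mono hLU)
  obtain ⟨c, hc⟩ : ∃ c, c ∉ U := by
    by_contra! hc
    exact NormedSpace.unbounded_univ ℝ ℂ (h.bdd.subset fun z _ => hc z)
  set Ω := connectedComponentIn Lᶜ c
  have h1 : Uᶜ ⊆ Ω := h.co.subset_connectedComponentIn hc (compl_subset_compl.2 hLU)
  have h2 : Ωᶜ ⊆ U := compl_subset_comm.1 h1
  have h3 : IsCompact (f '' Ωᶜ) := (isCompact_of_isClosed_isBounded
    hL.isClosed.isOpen_compl.connectedComponentIn.isClosed_compl (h.bdd.subset h2)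
    ).image_of_continuousOn (hf.mono h2)
  have key : ∀ a ∉ f '' U, ∃ z ∈ U, z ∈ Ω ∧ f z ∈ connectedComponentIn (f '' L)ᶜ a := by
    intro a ha
    by_contra! hz
    have a1 : a ∈ (f '' L)ᶜ := fun h4 => ha (image_mono hLU h4)
    set W := connectedComponentIn (f '' L)ᶜ a
    have h4 : (W ∩ f '' U).Nonempty := by
      obtain ⟨k, hk⟩ := nonempty_frontier_iff.2 ⟨⟨a, mem_connectedComponentIn a1⟩, fun e => by
        obtain ⟨l, hl⟩ := hn
        exact connectedComponentIn_subset _ _ (e.ge (mem_univ (f l))) ⟨l, hl, rfl⟩⟩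
      exact inter_comm _ _ ▸ mem_closure_iff.1 hk.1 _ ho
        (image_mono hLU (frontier_comp hK.isClosed a hk))
    obtain ⟨_, w1, ⟨z, z1, rfl⟩, w2⟩ := isPreconnected_connectedComponentIn _ _ ho
      h3.isClosed.isOpen_compl (fun w _ => (em _).imp (fun h5 => image_mono h2 h5) id) h4
      ⟨a, mem_connectedComponentIn a1, fun h5 => ha (image_mono h2 h5)⟩
    exact w2 ⟨z, fun h5 => hz z z1 h5 w1, rfl⟩
  obtain ⟨x, x1, x2, x3⟩ := key a ha
  obtain ⟨y, y1, y2, y3⟩ := key b hb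
  obtain ⟨Y, hY, hs, x4, y4⟩ := h.jan hL (by
    rw [show L ∩ J = ∅ from eq_empty_of_forall_notMem fun z hz => h.disj z (hLU hz.1) hz.2]
    exact isPreconnected_empty) x1 y1 (joined_of_open hL.isClosed.isOpen_compl
      isPreconnected_connectedComponentIn (connectedComponentIn_subset _ _) x2 y2)
  have h5 : JoinedIn (f '' L)ᶜ (f x) (f y) := joined_of_open hK.isClosed.isOpen_compl
    (hY.image f (hf.mono fun z hz => (hs hz).1)) (by
      rintro _ ⟨z, hz, rfl⟩ ⟨l, hl, e⟩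
      exact (hs hz).2 (hi (hLU hl) (hs hz).1 e ▸ hl)) ⟨x, x4, rfl⟩ ⟨y, y4, rfl⟩
  exact (((joined_iff_comp hK.isClosed fun h4 => ha (image_mono hLU h4)).2 x3).trans h5).trans
    ((joined_iff_comp hK.isClosed fun h4 => hb (image_mono hLU h4)).2 y3).symm

/-- Logarithms on all compact subsets of a domain give a logarithm on the domain. -/
theorem log_patch (ho : IsOpen U) (hc : IsPreconnected U) {h : ℂ → ℂ} {z₀ : ℂ} (h0 : z₀ ∈ U)
    (H : ∀ L, IsCompact L → L ⊆ U → z₀ ∈ L → ∃ g, ContinuousOn g L ∧ ∀ z ∈ L, exp (g z) = h z) :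
    ∃ g, ContinuousOn g U ∧ ∀ z ∈ U, exp (g z) = h z := by
  obtain ⟨g₀, -, e₀⟩ := H {z₀} isCompact_singleton (singleton_subset_iff.2 h0) rfl
  let P : Set ℂ → (ℂ → ℂ) → Prop := fun L g => IsCompact L ∧ IsPreconnected L ∧ L ⊆ U ∧ z₀ ∈ L ∧
    ContinuousOn g L ∧ (∀ z ∈ L, exp (g z) = h z) ∧ g z₀ = g₀ z₀
  have ex : ∀ z ∈ U, ∃ L g, P L g ∧ L ∈ 𝓝 z := fun z hz => by
    obtain ⟨γ, hγ⟩ := joined_of_open ho hc subset_rfl h0 hz
    obtain ⟨r, hr, hb⟩ := nhds_basis_closedBall.mem_iff.1 (ho.mem_nhds hz)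
    have a1 : IsCompact (range γ ∪ closedBall z r) :=
      (isCompact_range γ.continuous).union (isCompact_closedBall _ _)
    have a2 : range γ ∪ closedBall z r ⊆ U := union_subset (range_subset_iff.2 hγ) hb
    obtain ⟨g, g1, g2⟩ := H _ a1 a2 (.inl γ.source_mem_range)
    refine ⟨_, fun y => g y - g z₀ + g₀ z₀, ⟨a1, (isPreconnected_range γ.continuous).union z
      γ.target_mem_range (mem_closedBall_self hr.le) (convex_closedBall z r).isPreconnected, a2,
      .inl γ.source_mem_range, (g1.sub continuousOn_const).add continuousOn_const, fun y hy => ?_,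
      by simp⟩, mem_of_superset (closedBall_mem_nhds z hr) subset_union_right⟩
    rw [exp_add, exp_sub, e₀ _ rfl, ← g2 z₀ (.inl γ.source_mem_range), g2 y hy,
      div_mul_cancel₀ _ (exp_ne_zero _)]
  have un : ∀ L g L' g' z, P L g → P L' g' → z ∈ L → z ∈ L' → g z = g' z := by
    intro L g L' g' z p p' hz hz'
    obtain ⟨G, G1, G2⟩ := H _ (p.1.union p'.1) (union_subset p.2.2.1 p'.2.2.1) (.inl p.2.2.2.1)
    have k : ∀ L₁ g₁, P L₁ g₁ → L₁ ⊆ L ∪ L' → z ∈ L₁ → g₁ z - G z = g₀ z₀ - G z₀ :=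
      fun L₁ g₁ ⟨_, q2, _, q4, q5, q6, q7⟩ hs h1 => q7 ▸ const_of_exp (c := 1) q2
        (q5.sub (G1.mono hs)) (fun y hy => by
          rw [Pi.sub_apply, exp_sub, q6 y hy, ← G2 y (hs hy), div_self (exp_ne_zero _)]) h1 q4
    exact sub_left_injective
      ((k L g p subset_union_left hz).trans (k L' g' p' subset_union_right hz').symm)
  choose! L g hP hL using ex
  refine ⟨fun z => g z z, fun z hz => ContinuousAt.continuousWithinAt ?_,
    fun z hz => (hP z hz).2.2.2.2.2.1 z (mem_of_mem_nhds (hL z hz))⟩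
  refine ((hP z hz).2.2.2.2.1.continuousAt (hL z hz)).congr ?_
  filter_upwards [hL z hz] with y hy
  have h1 := (hP z hz).2.2.1 hy
  exact un _ _ _ _ y (hP z hz) (hP y h1) hy (mem_of_mem_nhds (hL y h1))

theorem Inner.exists_log (h : Inner J U) {f : ℂ → ℂ} (hf : ContinuousOn f U) (hi : InjOn f U)
    (ho : IsOpen (f '' U)) {z₀ : ℂ} (h0 : z₀ ∈ U) {a b : ℂ} (ha : a ∉ f '' U) (hb : b ∉ f '' U) :
    ∃ g, ContinuousOn g U ∧ ∀ z ∈ U, exp (g z) = (b - f z) / (a - f z) :=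
  log_patch h.op h.conn h0 fun L hL hU hz => by
    obtain ⟨g, g1, g2⟩ := log_of_joined (h.one_end hf hi ho hL ⟨_, hz⟩ hU ha hb)
    exact ⟨g ∘ f, g1.comp (hf.mono hU) (mapsTo_image _ _), fun z hz => g2 _ ⟨z, hz, rfl⟩⟩

end Pool.Agent.Lib.MP_66609f_al.Sch
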